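import Pool.Agent.Lib.MP_340332_ag.Gen

open Polynomial

namespace Pool.Agent.Lib.MP_340332_ag

noncomputable section

section General

variable {R C' : Type*} [CommRing R] [CommRing C'] [Algebra R C']

/-- Polynomials over `C'` whose coefficients lie in the subalgebra `S`. -/
def cyl (S : Subalgebra R C') : Subalgebra R C'[X] := (Polynomial.mapAlgHom S.val).range

lemma mem_cyl {S : Subalgebra R C'} {f : C'[X]} : f ∈ cyl S ↔ ∀ n, f.coeff n ∈ S := by
  have h1 : f ∈ cyl S ↔ f ∈ lifts (S.val : S →+* C') := by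
    rw [cyl, AlgHom.mem_range, Polynomial.mem_lifts]
    rfl
  rw [h1, lifts_iff_coeff_lifts]
  refine forall_congr' fun n => ?_
  constructor
  · rintro ⟨a, ha⟩
    rw [← ha]; exact a.2
  · intro h
    exact ⟨⟨f.coeff n, h⟩, rfl⟩

/-- The polynomial ring over a subalgebra. -/
def cylEquiv (S : Subalgebra R C') : S[X] ≃ₐ[R] cyl S :=
  AlgEquiv.ofInjective (Polynomial.mapAlgHom S.val)
    (Polynomial.map_injective (S.val : S →+* C') Subtype.val_injective)

lemma cylEquiv_apply (S : Subalgebra R C') (f : S[X]) :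
    (cylEquiv S f : C'[X]) = f.map (S.val : S →+* C') := rfl

lemma cyl_inf (S T : Subalgebra R C') : cyl (S ⊓ T) = cyl S ⊓ cyl T := by
  ext f
  simp only [mem_cyl, Algebra.mem_inf]
  exact forall_and

lemma C_mem_cyl {S : Subalgebra R C'} {a : C'} (ha : a ∈ S) : C a ∈ cyl S := by
  rw [mem_cyl]
  intro n
  rw [coeff_C]
  split_ifs
  · exact ha
  · exact zero_mem _

lemma X_mem_cyl {S : Subalgebra R C'} : (X : C'[X]) ∈ cyl S := by
  rw [mem_cyl]
  intro n
  rw [coeff_X]
  split_ifs
  · exact one_mem _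
  · exact zero_mem _

lemma cyl_adjoin (G : Set C') :
    cyl (Algebra.adjoin R G) = Algebra.adjoin R (insert X ((C : C' →+* C'[X]) '' G)) := by
  apply le_antisymm
  · intro f hf
    rw [mem_cyl] at hf
    have hC : ∀ a ∈ Algebra.adjoin R G,
        C a ∈ Algebra.adjoin R (insert X ((C : C' →+* C'[X]) '' G)) := by
      intro a ha
      induction ha using Algebra.adjoin_induction with
      | mem a ha => exact Algebra.subset_adjoin (Or.inr ⟨a, ha, rfl⟩)
      | algebraMap r =>
        rw [← Polynomial.algebraMap_apply]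
        exact Subalgebra.algebraMap_mem _ _
      | add a b _ _ iha ihb => rw [C_add]; exact add_mem iha ihb
      | mul a b _ _ iha ihb => rw [C_mul]; exact mul_mem iha ihb
    rw [← Polynomial.sum_C_mul_X_pow_eq f, Polynomial.sum]
    refine sum_mem fun n _ => mul_mem (hC _ (hf n)) (pow_mem ?_ _)
    exact Algebra.subset_adjoin (Or.inl rfl)
  · refine Algebra.adjoin_le ?_
    rintro f (rfl | ⟨a, ha, rfl⟩)
    · exact X_mem_cyl
    · exact C_mem_cyl (Algebra.subset_adjoin ha)

end General

section Auto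

variable {R F : Type*} [CommRing R] [Field F] [Algebra R F]

/-- The automorphism `u ↦ u + h(z)`. -/
def au (R : Type*) [CommRing R] [Algebra R F] (h : F[X]) : F[X][X] ≃ₐ[R] F[X][X] :=
  (Polynomial.algEquivAevalXAddC h).restrictScalars R

/-- The automorphism `z ↦ z + p(u)`. -/
def az (R : Type*) [CommRing R] [Algebra R F] (p : F[X]) : F[X][X] ≃ₐ[R] F[X][X] :=
  ((Bivariate.swap (R := F)).restrictScalars R).trans
    ((au R p).trans ((Bivariate.swap (R := F)).restrictScalars R))

@[simp] lemma au_C (h a : F[X]) : au R h (C a) = C a := by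
  simp [au, Polynomial.algEquivAevalXAddC]

@[simp] lemma au_X (h : F[X]) : au R h X = X + C h := by
  simp [au, Polynomial.algEquivAevalXAddC]

@[simp] lemma az_X (p : F[X]) : az R p X = X := by
  change Bivariate.swap (au R p (Bivariate.swap X)) = X
  rw [Bivariate.swap_Y, au_C, Bivariate.swap_X]

@[simp] lemma az_CX (p : F[X]) : az R p (C X) = C X + p.map C := by
  change Bivariate.swap (au R p (Bivariate.swap (C X))) = _
  rw [Bivariate.swap_X, au_X, map_add, Bivariate.swap_Y, Bivariate.swap_C]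

@[simp] lemma az_CC (p : F[X]) (a : F) : az R p (C (C a)) = C (C a) := by
  change Bivariate.swap (au R p (Bivariate.swap (C (C a)))) = _
  rw [Bivariate.swap_C_C, au_C, Bivariate.swap_C_C]

/-- If an automorphism of `F[z][u]` carries a subalgebra onto another, they are isomorphic. -/
def restrictEquiv {C' : Type*} [CommRing C'] [Algebra R C'] (e : C' ≃ₐ[R] C')
    {S T : Subalgebra R C'} (h : S.map (e : C' →ₐ[R] C') = T) : S ≃ₐ[R] T :=
  (e.subalgebraMap S).trans (Subalgebra.equivOfEq _ _ h)

lemma restrictEquiv_apply {C' : Type*} [CommRing C'] [Algebra R C'] (e : C' ≃ₐ[R] C')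
    {S T : Subalgebra R C'} (h : S.map (e : C' →ₐ[R] C') = T) (s : S) :
    (restrictEquiv e h s : C') = e s := rfl

lemma map_inf_eq {C' : Type*} [CommRing C'] [Algebra R C'] (e : C' ≃ₐ[R] C')
    (S T : Subalgebra R C') :
    (S ⊓ T).map (e : C' →ₐ[R] C') = S.map (e : C' →ₐ[R] C') ⊓ T.map (e : C' →ₐ[R] C') := by
  apply le_antisymm
  · exact le_inf (Subalgebra.map_mono inf_le_left) (Subalgebra.map_mono inf_le_right)
  · rintro f ⟨⟨a, ha, rfl⟩, ⟨b, hb, hab⟩⟩
    have : b = a := e.injective hab
    subst this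
    exact ⟨b, ⟨ha, hb⟩, rfl⟩

end Auto

end

end Pool.Agent.Lib.MP_340332_ag
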