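import Mathlib

/-!
# Locally nilpotent derivations with a slice, the modified Derksen invariant, type B

`K` is a field, varieties over `K` are given by their coordinate algebras.
-/

open Polynomial

namespace Pool.Agent.Lib.MP_340332_ag

/-- A `K`-derivation `D` of a `K`-algebra `B` is locally nilpotent (an LND) if every element
is killed by some iterate of `D`. -/
def IsLND {K B : Type*} [Field K] [CommRing B] [Algebra K B] (D : Derivation K B B) : Prop :=
  ∀ b : B, ∃ n : ℕ, (fun c : B => D c)^[n] b = 0

/-- The modified Derksen invariant of the variety with coordinate algebra `B`: the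
`K`-subalgebra of `B` generated by the kernels of all locally nilpotent derivations of `B`
that admit a slice. -/
def HDstar (K B : Type*) [Field K] [CommRing B] [Algebra K B] : Subalgebra K B :=
  Algebra.adjoin K
    {b | ∃ D : Derivation K B B, IsLND D ∧ (∃ s : B, D s = 1) ∧ D b = 0}

/-- The variety with coordinate algebra `Y` is of type B: the modified Derksen invariant of
`Y × 𝔸¹`, whose coordinate algebra is `Y[X]`, is a proper subalgebra which is not finitely
generated. -/
def IsTypeB (K Y : Type*) [Field K] [CommRing Y] [Algebra K Y] : Prop :=
  HDstar K Y[X] ≠ ⊤ ∧ ¬ (HDstar K Y[X]).FG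

end Pool.Agent.Lib.MP_340332_ag
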