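import Pool.Agent.Lib.MP_340332_ag.Gen

open Polynomial

namespace Pool.Agent.Lib.MP_340332_ag

noncomputable section

/-- Transport of integrality along a ring homomorphism. -/
lemma mem_integralClosure_of {R' C C' : Type*} [CommRing R'] [CommRing C] [CommRing C']
    [Algebra R' C'] (S : Subring C) (ω : C →+* C')
    (hω : ∀ a ∈ S, ω a ∈ integralClosure R' C') {f : C} (hf : IsIntegral S f) :
    ω f ∈ integralClosure R' C' := by
  obtain ⟨p, hpm, hp⟩ := hf
  let θ : S →+* integralClosure R' C' :=
    (ω.comp S.subtype).codRestrict (integralClosure R' C') (fun a => hω a a.2)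
  have h1 : IsIntegral (integralClosure R' C') (ω f) := by
    refine ⟨p.map θ, hpm.map θ, ?_⟩
    rw [eval₂_map]
    have h2 := congrArg ω hp
    rw [map_zero, hom_eval₂] at h2
    rw [← h2]
    rfl
  exact isIntegral_trans (R := R') (ω f) h1

attribute [local instance] Polynomial.algebra

set_option linter.unusedSectionVars false

variable {R F : Type*} [CommRing R] [IsDomain R] [IsIntegrallyClosed R]
  [Field F] [Algebra R F] [IsFractionRing R F]

lemma normal_O0 (g : F) {f : F[X]} (hf : IsIntegral (O0 R g).toSubring f) : f ∈ O0 R g := by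
  let τ : F[X] ≃ₐ[F] F[X] := algEquivAevalXAddC g
  have h1 : τ f ∈ integralClosure R[X] F[X] := by
    suffices hgen : ∀ a ∈ O0 R g, (τ : F[X] →+* F[X]) a ∈ integralClosure R[X] F[X] from
      mem_integralClosure_of (O0 R g).toSubring (τ : F[X] →+* F[X]) hgen hf
    intro a ha
    unfold O0 at ha
    induction ha using Algebra.adjoin_induction with
    | mem a ha =>
      rw [Set.mem_singleton_iff] at ha
      subst ha
      have : (τ : F[X] →+* F[X]) (X - C g) = algebraMap R[X] F[X] X := by
        change τ (X - C g) = _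
        simp [τ, algEquivAevalXAddC]
      rw [this]
      exact Subalgebra.algebraMap_mem _ _
    | algebraMap r =>
      have : (τ : F[X] →+* F[X]) (algebraMap R F[X] r) = algebraMap R[X] F[X] (C r) := by
        change τ (algebraMap R F[X] r) = _
        rw [Polynomial.algebraMap_apply]
        simp [τ, algEquivAevalXAddC]
      rw [this]
      exact Subalgebra.algebraMap_mem _ _
    | add a b _ _ iha ihb => rw [map_add]; exact add_mem iha ihb
    | mul a b _ _ iha ihb => rw [map_mul]; exact mul_mem iha ihb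
  have h2 : ∀ i, ∃ r : R, algebraMap R F r = (τ f).coeff i := fun i =>
    IsIntegrallyClosed.algebraMap_eq_of_integral (IsIntegral.coeff h1 i)
  have h3 : f = (τ f).comp (X - C g) := by
    have : f = τ.symm (τ f) := (τ.symm_apply_apply f).symm
    conv_lhs => rw [this]
    simp only [τ, algEquivAevalXAddC]
    rw [algEquivOfCompEqX_symm]
    simp [comp, eval₂_eq_eval_map, aeval_def]
  rw [h3, comp, eval₂_eq_sum_range]
  refine sum_mem fun i _ => ?_
  obtain ⟨r, hr⟩ := h2 i
  rw [← hr]
  exact mul_mem (C_mem _ r) (pow_mem (t_mem_O0 g) _)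

/-- Coefficient criterion for membership in `O1`. -/
lemma mem_O1_of {x : R} {f : F[X]}
    (h : ∀ i, (∃ r : R, f.coeff (2 * i) = algebraMap R F (x ^ i * r)) ∧
      (∃ r : R, f.coeff (2 * i + 1) = algebraMap R F (x ^ (i + 1) * r))) : f ∈ O1 F x := by
  rw [← Polynomial.sum_C_mul_X_pow_eq f, Polynomial.sum]
  refine sum_mem fun n _ => ?_
  obtain ⟨i, hi⟩ := Nat.even_or_odd' n
  rcases hi with rfl | rfl
  · obtain ⟨r, hr⟩ := (h i).1
    have : C (f.coeff (2 * i)) * X ^ (2 * i) =
        C (algebraMap R F r) * (C (algebraMap R F x) * X ^ 2) ^ i := by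
      rw [hr, map_mul, map_pow, C_mul, C_pow]; ring
    rw [this]
    exact mul_mem (C_mem _ r) (pow_mem (cc_mem_O1 x) _)
  · obtain ⟨r, hr⟩ := (h i).2
    have : C (f.coeff (2 * i + 1)) * X ^ (2 * i + 1) =
        C (algebraMap R F r) * (C (algebraMap R F x) * X ^ 2) ^ i * bb F x := by
      rw [hr, map_mul, map_pow, C_mul, C_pow, bb]; ring
    rw [this]
    exact mul_mem (mul_mem (C_mem _ r) (pow_mem (cc_mem_O1 x) _)) (bb_mem_O1 x)

lemma normal_O1 {x : R} (hx : Prime x) {f : F[X]} (hf : IsIntegral (O1 F x).toSubring f) :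
    f ∈ O1 F x := by
  have hxF : algebraMap R F x ≠ 0 := by
    rw [Ne, map_eq_zero_iff _ (IsFractionRing.injective R F)]; exact hx.ne_zero
  let L := AlgebraicClosure F
  obtain ⟨s, hs⟩ := IsAlgClosed.exists_pow_nat_eq (algebraMap F L (algebraMap R F x)) two_pos
  have hs0 : s ≠ 0 := by
    rintro rfl
    rw [zero_pow two_ne_zero] at hs
    exact hxF ((map_eq_zero_iff _ (algebraMap F L).injective).1 hs.symm)
  have hsint : IsIntegral R s := by
    have h1 : IsIntegral R (s ^ 2) := by
      rw [hs, ← IsScalarTower.algebraMap_apply]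
      exact isIntegral_algebraMap
    exact IsIntegral.of_pow two_pos h1
  let ω : F[X] →ₐ[F] L[X] := aeval (C s⁻¹ * X)
  have hωC : ∀ a, ω (C a) = C (algebraMap F L a) := by
    intro a
    simp [ω, Polynomial.algebraMap_apply]
  have hωX : ω X = C s⁻¹ * X := by simp [ω]
  have hX : (X : L[X]) ∈ integralClosure R[X] L[X] := by
    have : (X : L[X]) = algebraMap R[X] L[X] X := by simp
    rw [this]; exact Subalgebra.algebraMap_mem _ _
  have hCs : (C s : L[X]) ∈ integralClosure R[X] L[X] := by
    rw [mem_integralClosure_iff, Polynomial.isIntegral_iff_isIntegral_coeff]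
    intro n
    rw [coeff_C]
    split_ifs
    · exact hsint
    · exact isIntegral_zero
  have h1 : ω f ∈ integralClosure R[X] L[X] := by
    suffices hgen : ∀ a ∈ O1 F x, (ω : F[X] →+* L[X]) a ∈ integralClosure R[X] L[X] from
      mem_integralClosure_of (O1 F x).toSubring (ω : F[X] →+* L[X]) hgen hf
    intro a ha
    unfold O1 at ha
    induction ha using Algebra.adjoin_induction with
    | mem a ha =>
      rcases ha with rfl | rfl
      · have : (ω : F[X] →+* L[X]) (C (algebraMap R F x) * X) = C s * X := by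
          change ω (C (algebraMap R F x) * X) = _
          rw [map_mul, hωC, hωX, ← hs, ← mul_assoc, ← C_mul, pow_two, mul_assoc s s,
            mul_inv_cancel₀ hs0, mul_one]
        rw [this]
        exact mul_mem hCs hX
      · have : (ω : F[X] →+* L[X]) (C (algebraMap R F x) * X ^ 2) = X ^ 2 := by
          change ω (C (algebraMap R F x) * X ^ 2) = _
          rw [map_mul, map_pow, hωC, hωX, ← hs, mul_pow, ← mul_assoc, ← C_pow, ← C_mul,
            inv_pow, mul_inv_cancel₀ (pow_ne_zero 2 hs0), C_1, one_mul]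
        rw [this]
        exact pow_mem hX _
    | algebraMap r =>
      have : (ω : F[X] →+* L[X]) (algebraMap R F[X] r) = algebraMap R[X] L[X] (C r) := by
        change ω (algebraMap R F[X] r) = _
        rw [Polynomial.algebraMap_apply, hωC]
        simp [← IsScalarTower.algebraMap_apply]
      rw [this]
      exact Subalgebra.algebraMap_mem _ _
    | add a b _ _ iha ihb => rw [map_add]; exact add_mem iha ihb
    | mul a b _ _ iha ihb => rw [map_mul]; exact mul_mem iha ihb
  have hcoeff : ∀ n, (ω f).coeff n = algebraMap F L (f.coeff n) * (s⁻¹) ^ n := by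
    intro n
    have : ω f = ((f.map (algebraMap F L)).comp (C s⁻¹ * X)) := by
      rw [comp, eval₂_map]
      simp only [ω, aeval_def]
      rfl
    rw [this, comp_C_mul_X_coeff, coeff_map]
  have h2 : ∀ n, IsIntegral R (algebraMap F L (f.coeff n) * (s⁻¹) ^ n) := fun n => by
    rw [← hcoeff]; exact IsIntegral.coeff h1 n
  have hinj : ∀ a : F, IsIntegral R (algebraMap F L a) → ∃ r : R, algebraMap R F r = a := by
    intro a ha
    exact IsIntegrallyClosed.algebraMap_eq_of_integral
      ((isIntegral_algebraMap_iff (algebraMap F L).injective).1 ha)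
  apply mem_O1_of
  intro i
  have hxp : ∀ i : ℕ, algebraMap R F x ^ i * (algebraMap R F x)⁻¹ ^ i = 1 := by
    intro i
    rw [← mul_pow, mul_inv_cancel₀ hxF, one_pow]
  have hxs : ∀ i : ℕ, (s⁻¹) ^ (2 * i) = algebraMap F L ((algebraMap R F x)⁻¹ ^ i) := by
    intro i
    rw [pow_mul, inv_pow, hs, map_pow, map_inv₀]
  constructor
  · have h3 := h2 (2 * i)
    rw [hxs, ← map_mul] at h3
    obtain ⟨r, hr⟩ := hinj _ h3
    refine ⟨r, ?_⟩
    rw [map_mul, map_pow, hr]
    linear_combination (-f.coeff (2 * i)) * hxp i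
  · have h3 := h2 (2 * i + 1)
    rw [pow_succ, hxs, ← mul_assoc, ← map_mul] at h3
    set e := f.coeff (2 * i + 1) * (algebraMap R F x)⁻¹ ^ i with he
    have h4 : IsIntegral R (algebraMap F L e) := by
      have := h3.mul hsint
      rwa [mul_assoc, inv_mul_cancel₀ hs0, mul_one] at this
    have h5 : IsIntegral R (algebraMap F L (e ^ 2 * (algebraMap R F x)⁻¹)) := by
      have := h3.pow 2
      rw [mul_pow, inv_pow, hs, ← map_inv₀, ← map_pow, ← map_mul] at this
      exact this
    obtain ⟨r, hr⟩ := hinj _ h4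
    obtain ⟨t, ht⟩ := hinj _ h5
    have h6 : r ^ 2 = x * t := by
      apply IsFractionRing.injective R F
      rw [map_pow, map_mul, hr, ht]
      field_simp
    obtain ⟨q, hq⟩ := hx.dvd_of_dvd_pow (⟨t, h6⟩ : x ∣ r ^ 2)
    refine ⟨q, ?_⟩
    have h7 : f.coeff (2 * i + 1) = algebraMap R F x ^ i * e := by
      rw [he]
      linear_combination (-f.coeff (2 * i + 1)) * hxp i
    rw [h7, ← hr, hq, pow_succ]
    simp only [map_mul, map_pow]
    ring

theorem normal_AA {x : R} (hx : Prime x) (g : F) : IsIntegrallyClosed (AA x g) := by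
  have : IsIntegrallyClosedIn (AA x g) F[X] := by
    refine isIntegrallyClosedIn_iff.mpr ⟨Subtype.val_injective, ?_⟩
    intro f hf
    have hf' : IsIntegral (AA x g) f := hf
    have h1 : IsIntegral (O1 F x).toSubring f := by
      obtain ⟨p, hpm, hp⟩ := hf'
      let θ : AA x g →+* (O1 F x).toSubring :=
        ((AA x g).val : AA x g →+* F[X]).codRestrict (O1 F x).toSubring (fun a => a.2.1)
      refine ⟨p.map θ, hpm.map θ, ?_⟩
      rw [eval₂_map]
      exact hp
    have h0 : IsIntegral (O0 R g).toSubring f := by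
      obtain ⟨p, hpm, hp⟩ := hf'
      let θ : AA x g →+* (O0 R g).toSubring :=
        ((AA x g).val : AA x g →+* F[X]).codRestrict (O0 R g).toSubring (fun a => a.2.2)
      refine ⟨p.map θ, hpm.map θ, ?_⟩
      rw [eval₂_map]
      exact hp
    exact ⟨⟨f, normal_O1 hx h1, normal_O0 g h0⟩, rfl⟩
  exact IsIntegrallyClosed.of_isIntegrallyClosed_of_isIntegrallyClosedIn _ F[X]

end

end Pool.Agent.Lib.MP_340332_ag
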