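import Pool.Agent.Lib.MP_340332_ag.Main
import Pool.Agent.Lib.MP_340332_ag.Normal

open Polynomial

namespace Pool.Agent.Lib.MP_340332_ag

noncomputable section

section

variable {R F : Type*} [CommRing R] [Field F] [Algebra R F]

/-- The cylinders over the two surfaces are isomorphic. -/
def theCylIso {x : R} (hx : algebraMap R F x ≠ 0) :
    (AA x (algebraMap R F x)⁻¹)[X] ≃ₐ[R] (AA x ((algebraMap R F x)⁻¹ ^ 2))[X] := by
  set c : F := algebraMap R F x with hc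
  have hcm : ∀ S : Subalgebra R F[X], C c ∈ S := fun S => by rw [hc]; exact C_mem S x
  have hb : C c * X ∈ O1 F x := by rw [hc]; exact bb_mem_O1 x
  have hcc : C c * X ^ 2 ∈ O1 F x := by rw [hc]; exact cc_mem_O1 x
  have e : c⁻¹ + (c⁻¹ ^ 2 - c⁻¹) = c⁻¹ ^ 2 := by ring
  have hinv : C c * C c⁻¹ = (1 : F[X]) := by rw [← C_mul, mul_inv_cancel₀ hx, C_1]
  have hP : 5 * (C c * X ^ 2) ^ 2 - 4 * (C c * X) * (C c * X ^ 2) ^ 2 - C c * X ^ 2 ∈ O1 F x :=
    sub_mem (sub_mem (mul_mem (ofNat_mem _ 5) (pow_mem hcc _))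
      (mul_mem (mul_mem (ofNat_mem _ 4) hb) (pow_mem hcc _))) hcc
  have hP' : (C c * X) ^ 2 - C c * X ∈ O1 F x := sub_mem (pow_mem hb _) hb
  have h : 5 * (C c * X ^ 2) ^ 2 - 4 * (C c * X) * (C c * X ^ 2) ^ 2 - C c * X ^ 2 -
      C (c⁻¹ ^ 2 - c⁻¹) ∈ O0 R c⁻¹ := by
    have ht : X - C c⁻¹ ∈ O0 R c⁻¹ := t_mem_O0 _
    have : 5 * (C c * X ^ 2) ^ 2 - 4 * (C c * X) * (C c * X ^ 2) ^ 2 - C c * X ^ 2 -
        C (c⁻¹ ^ 2 - c⁻¹) = -2 * (X - C c⁻¹) - (10 + C c) * (X - C c⁻¹) ^ 2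
          - 20 * C c * (X - C c⁻¹) ^ 3 - 15 * C c ^ 2 * (X - C c⁻¹) ^ 4
          - 4 * C c ^ 3 * (X - C c⁻¹) ^ 5 := by
      rw [C_sub, C_pow]
      generalize hd : C c⁻¹ = d at hinv ⊢
      linear_combination (-2 * X - 10 * X ^ 2 + d + 20 * d * X - 9 * d ^ 2
        - 20 * C c * X ^ 3 + 50 * C c * d * X ^ 2 - 40 * C c * d ^ 2 * X + 11 * C c * d ^ 3
        - 20 * C c ^ 2 * X ^ 4 + 40 * C c ^ 2 * d * X ^ 3 - 40 * C c ^ 2 * d ^ 2 * X ^ 2
        + 20 * C c ^ 2 * d ^ 3 * X - 4 * C c ^ 2 * d ^ 4) * hinv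
    rw [this]
    have h2 : (2 : F[X]) ∈ O0 R c⁻¹ := ofNat_mem _ 2
    have h10 : (10 : F[X]) ∈ O0 R c⁻¹ := ofNat_mem _ 10
    have h20 : (20 : F[X]) ∈ O0 R c⁻¹ := ofNat_mem _ 20
    have h15 : (15 : F[X]) ∈ O0 R c⁻¹ := ofNat_mem _ 15
    have h4 : (4 : F[X]) ∈ O0 R c⁻¹ := ofNat_mem _ 4
    exact sub_mem (sub_mem (sub_mem (sub_mem (mul_mem (neg_mem h2) ht)
      (mul_mem (add_mem h10 (hcm _)) (pow_mem ht _)))
      (mul_mem (mul_mem h20 (hcm _)) (pow_mem ht _)))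
      (mul_mem (mul_mem h15 (pow_mem (hcm _) _)) (pow_mem ht _)))
      (mul_mem (mul_mem h4 (pow_mem (hcm _) _)) (pow_mem ht _))
  have h' : (C c * X) ^ 2 - C c * X - C (c⁻¹ ^ 2 - c⁻¹) ∈ O0 R (c⁻¹ + (c⁻¹ ^ 2 - c⁻¹)) := by
    rw [e]
    have ht : X - C (c⁻¹ ^ 2) ∈ O0 R (c⁻¹ ^ 2) := t_mem_O0 _
    have : (C c * X) ^ 2 - C c * X - C (c⁻¹ ^ 2 - c⁻¹) =
        (2 - C c) * (X - C (c⁻¹ ^ 2)) + C c ^ 2 * (X - C (c⁻¹ ^ 2)) ^ 2 := by
      rw [C_sub, C_pow]
      generalize hd : C c⁻¹ = d at hinv ⊢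
      linear_combination (2 * X - d - d ^ 2 + 2 * C c * d * X - C c * d ^ 3) * hinv
    rw [this]
    have h2 : (2 : F[X]) ∈ O0 R (c⁻¹ ^ 2) := ofNat_mem _ 2
    exact add_mem (mul_mem (sub_mem h2 (hcm _)) ht) (mul_mem (pow_mem (hcm _) _) (pow_mem ht _))
  have e2 : AA x (c⁻¹ + (c⁻¹ ^ 2 - c⁻¹)) = AA x (c⁻¹ ^ 2) := by rw [e]
  exact (cylIso hP hP' h h').trans
    (Polynomial.mapAlgEquiv (Subalgebra.equivOfEq _ _ e2))

end

section

variable (K : Type*) [Field K]

/-- The base ring `K[T, T⁻¹]`. -/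
abbrev RR : Type _ := LaurentPolynomial K

/-- The coordinate `x = T - 1`. -/
def xR : RR K := LaurentPolynomial.T 1 - 1

/-- Evaluation at `T = 1`. -/
def rho : RR K →ₐ[K] K := AddMonoidAlgebra.lift K K ℤ 1

lemma rho_T (n : ℤ) : rho K (LaurentPolynomial.T n) = 1 := by
  rw [rho, LaurentPolynomial.T, AddMonoidAlgebra.lift_single]
  simp

lemma rho_x : rho K (xR K) = 0 := by
  rw [xR, map_sub, rho_T, map_one, sub_self]

lemma x_ne : xR K ≠ 0 := by
  intro h
  have h1 : (LaurentPolynomial.T 1 : RR K) = LaurentPolynomial.T 0 := by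
    rw [LaurentPolynomial.T_zero]; exact sub_eq_zero.1 h
  have h2 := congrArg (fun f : RR K => f.coeff 1) h1
  simp only [LaurentPolynomial.T_apply] at h2
  norm_num at h2

lemma x_dvd_T (n : ℤ) : xR K ∣ LaurentPolynomial.T n - 1 := by
  have h1 : ∀ n : ℕ, xR K ∣ LaurentPolynomial.T (n : ℤ) - 1 := by
    intro n
    have : (LaurentPolynomial.T (n : ℤ) : RR K) = LaurentPolynomial.T 1 ^ n := by
      rw [LaurentPolynomial.T_pow, mul_one]
    rw [this]
    have h2 := sub_dvd_pow_sub_pow (LaurentPolynomial.T 1 : RR K) 1 n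
    rwa [one_pow] at h2
  rcases Int.eq_nat_or_neg n with ⟨m, rfl | rfl⟩
  · exact h1 m
  · have h2 : (LaurentPolynomial.T (-(m : ℤ)) : RR K) - 1 =
        -LaurentPolynomial.T (-(m : ℤ)) * (LaurentPolynomial.T (m : ℤ) - 1) := by
      rw [mul_sub, neg_mul, ← LaurentPolynomial.T_add, neg_add_cancel, LaurentPolynomial.T_zero]
      ring
    rw [h2]
    exact dvd_mul_of_dvd_right (h1 m) _

lemma rho_ker (r : RR K) (hr : rho K r = 0) : ∃ s, r = xR K * s := by
  have key : ∀ r : RR K, xR K ∣ r - algebraMap K (RR K) (rho K r) := by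
    intro r
    induction r using LaurentPolynomial.induction_on' with
    | add p q hp hq =>
      have : p + q - algebraMap K (RR K) (rho K (p + q)) =
          (p - algebraMap K (RR K) (rho K p)) + (q - algebraMap K (RR K) (rho K q)) := by
        rw [map_add, map_add]; ring
      rw [this]
      exact dvd_add hp hq
    | C_mul_T n a =>
      have : LaurentPolynomial.C a * LaurentPolynomial.T n -
          algebraMap K (RR K) (rho K (LaurentPolynomial.C a * LaurentPolynomial.T n)) =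
          LaurentPolynomial.C a * (LaurentPolynomial.T n - 1) := by
        rw [map_mul, rho_T, mul_one, LaurentPolynomial.C_eq_algebraMap, AlgHom.commutes]
        simp only [Algebra.algebraMap_self, RingHom.id_apply]
        ring
      rw [this]
      exact dvd_mul_of_dvd_right (x_dvd_T K n) _
  obtain ⟨s, hs⟩ := key r
  rw [hr, map_zero, sub_zero] at hs
  exact ⟨s, hs⟩

lemma x_prime : Prime (xR K) := by
  refine ⟨x_ne K, ?_, ?_⟩
  · intro hu
    have := hu.map (rho K)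
    rw [rho_x] at this
    exact not_isUnit_zero this
  · rintro a b ⟨c, hc⟩
    have h1 : rho K a * rho K b = 0 := by
      rw [← map_mul, hc, map_mul, rho_x, zero_mul]
    rcases mul_eq_zero.1 h1 with h | h
    · left; exact rho_ker K a h
    · right; exact rho_ker K b h

lemma adjoin_units : Algebra.adjoin K {r : RR K | IsUnit r} = ⊤ := by
  rw [eq_top_iff]
  rintro r -
  induction r using LaurentPolynomial.induction_on' with
  | add p q hp hq => exact add_mem hp hq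
  | C_mul_T n a =>
    rw [LaurentPolynomial.C_eq_algebraMap]
    exact mul_mem (Subalgebra.algebraMap_mem _ _)
      (Algebra.subset_adjoin (LaurentPolynomial.isUnit_T n))

instance : IsIntegrallyClosed (RR K) := by
  have hM : Submonoid.powers (X : K[X]) ≤ nonZeroDivisors K[X] := by
    rw [Submonoid.powers_le]
    exact mem_nonZeroDivisors_of_ne_zero X_ne_zero
  exact isIntegrallyClosed_of_isLocalization (RR K) (Submonoid.powers (X : K[X])) hM

end

end

end Pool.Agent.Lib.MP_340332_ag
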