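import Pool.Agent.Lib.MP_340332_ag.Rings

open Polynomial

namespace Pool.Agent.Lib.MP_340332_ag

noncomputable section

variable {R F : Type*} [CommRing R] [Field F] [Algebra R F]

/-- `b = x z`. -/
def bb (F : Type*) [Field F] [Algebra R F] (x : R) : F[X] := C (algebraMap R F x) * X

/-- `y = x z ^ 2 (x z - 1)`, so that `x y = b ^ 2 (b - 1)`. -/
def yy (F : Type*) [Field F] [Algebra R F] (x : R) : F[X] :=
  C (algebraMap R F x) * X ^ 2 * (C (algebraMap R F x) * X - 1)

lemma smul_eq (r : R) (f : F[X]) : r • f = C (algebraMap R F r) * f := by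
  rw [Algebra.smul_def, Polynomial.algebraMap_apply]

lemma rel (x : R) : algebraMap R F[X] x * yy F x = bb F x ^ 2 * (bb F x - 1) := by
  rw [Polynomial.algebraMap_apply, yy, bb]; ring

lemma C_mem (S : Subalgebra R F[X]) (r : R) : C (algebraMap R F r) ∈ S := by
  rw [← Polynomial.algebraMap_apply]; exact S.algebraMap_mem r

lemma bb_mem_O1 (x : R) : bb F x ∈ O1 F x := Algebra.subset_adjoin (Or.inl rfl)

lemma cc_mem_O1 (x : R) : C (algebraMap R F x) * X ^ 2 ∈ O1 F x :=
  Algebra.subset_adjoin (Or.inr rfl)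

lemma yy_mem_O1 (x : R) : yy F x ∈ O1 F x :=
  mul_mem (cc_mem_O1 x) (sub_mem (bb_mem_O1 x) (one_mem _))

lemma t_mem_O0 (g : F) : X - C g ∈ O0 R g := Algebra.subset_adjoin rfl

variable {x : R} (hx : algebraMap R F x ≠ 0)

include hx

lemma bb_eq : bb F x = C (algebraMap R F x) * (X - C (algebraMap R F x)⁻¹) + 1 := by
  rw [bb, mul_sub, ← C_mul, mul_inv_cancel₀ hx, C_1]; ring

lemma yy_eq : yy F x = bb F x ^ 2 * (X - C (algebraMap R F x)⁻¹) := by
  have : C (algebraMap R F x) * C (algebraMap R F x)⁻¹ = 1 := by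
    rw [← C_mul, mul_inv_cancel₀ hx, C_1]
  rw [yy, bb]
  linear_combination (C (algebraMap R F x) * X ^ 2) * this

lemma bb_mem : bb F x ∈ AA x (algebraMap R F x)⁻¹ := by
  refine ⟨bb_mem_O1 x, ?_⟩
  rw [bb_eq hx]
  exact add_mem (mul_mem (C_mem _ x) (t_mem_O0 _)) (one_mem _)

lemma yy_mem : yy F x ∈ AA x (algebraMap R F x)⁻¹ := by
  refine ⟨yy_mem_O1 x, ?_⟩
  rw [yy_eq hx]
  refine mul_mem (pow_mem ?_ _) (t_mem_O0 _)
  exact (bb_mem hx).2

lemma AA_eq_adjoin : AA x (algebraMap R F x)⁻¹ = Algebra.adjoin R {bb F x, yy F x} := by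
  set S : Subalgebra R F[X] := Algebra.adjoin R {bb F x, yy F x} with hS
  have hb : bb F x ∈ S := Algebra.subset_adjoin (Or.inl rfl)
  have hy : yy F x ∈ S := Algebra.subset_adjoin (Or.inr rfl)
  apply le_antisymm
  · -- multiplying by a power of `b - 1` or `b` lands in `S`
    have h1 : ∀ f ∈ O1 F x, ∃ N : ℕ, (bb F x - 1) ^ N * f ∈ S := by
      intro f hf1
      unfold O1 at hf1
      induction hf1 using Algebra.adjoin_induction with
      | mem f hf =>
        rcases hf with rfl | rfl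
        · exact ⟨0, by rw [pow_zero, one_mul]; exact hb⟩
        · refine ⟨1, ?_⟩
          have : (bb F x - 1) ^ 1 * (C (algebraMap R F x) * X ^ 2) = yy F x := by
            rw [pow_one, yy, bb]; ring
          rw [this]; exact hy
      | algebraMap r => exact ⟨0, by rw [pow_zero, one_mul]; exact S.algebraMap_mem r⟩
      | add f h _ _ ihf ihh =>
        obtain ⟨N, hN⟩ := ihf
        obtain ⟨M, hM⟩ := ihh
        refine ⟨N + M, ?_⟩
        have : (bb F x - 1) ^ (N + M) * (f + h) = (bb F x - 1) ^ M * ((bb F x - 1) ^ N * f) +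
          (bb F x - 1) ^ N * ((bb F x - 1) ^ M * h) := by ring
        rw [this]
        have hb1 : bb F x - 1 ∈ S := sub_mem hb (one_mem _)
        exact add_mem (mul_mem (pow_mem hb1 _) hN) (mul_mem (pow_mem hb1 _) hM)
      | mul f h _ _ ihf ihh =>
        obtain ⟨N, hN⟩ := ihf
        obtain ⟨M, hM⟩ := ihh
        refine ⟨N + M, ?_⟩
        have : (bb F x - 1) ^ (N + M) * (f * h) = ((bb F x - 1) ^ N * f) *
          ((bb F x - 1) ^ M * h) := by ring
        rw [this]
        exact mul_mem hN hM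
    have h0 : ∀ f ∈ O0 R (algebraMap R F x)⁻¹, ∃ N : ℕ, (bb F x) ^ N * f ∈ S := by
      intro f hf0
      unfold O0 at hf0
      induction hf0 using Algebra.adjoin_induction with
      | mem f hf =>
        rw [Set.mem_singleton_iff] at hf
        subst hf
        exact ⟨2, by rw [← yy_eq hx]; exact hy⟩
      | algebraMap r => exact ⟨0, by rw [pow_zero, one_mul]; exact S.algebraMap_mem r⟩
      | add f h _ _ ihf ihh =>
        obtain ⟨N, hN⟩ := ihf
        obtain ⟨M, hM⟩ := ihh
        refine ⟨N + M, ?_⟩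
        have : (bb F x) ^ (N + M) * (f + h) = (bb F x) ^ M * ((bb F x) ^ N * f) +
          (bb F x) ^ N * ((bb F x) ^ M * h) := by ring
        rw [this]
        exact add_mem (mul_mem (pow_mem hb _) hN) (mul_mem (pow_mem hb _) hM)
      | mul f h _ _ ihf ihh =>
        obtain ⟨N, hN⟩ := ihf
        obtain ⟨M, hM⟩ := ihh
        refine ⟨N + M, ?_⟩
        have : (bb F x) ^ (N + M) * (f * h) = ((bb F x) ^ N * f) *
          ((bb F x) ^ M * h) := by ring
        rw [this]
        exact mul_mem hN hM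
    rintro f ⟨hf1, hf0⟩
    obtain ⟨N, hN⟩ := h1 f hf1
    obtain ⟨M, hM⟩ := h0 f hf0
    have hcop : IsCoprime ((⟨bb F x, hb⟩ : S) - 1) (⟨bb F x, hb⟩ : S) :=
      ⟨-1, 1, by ring⟩
    obtain ⟨p, q, hpq⟩ := hcop.pow (m := N) (n := M)
    have hpq' : (p : F[X]) * (bb F x - 1) ^ N + q * (bb F x) ^ M = 1 := by
      have := congrArg (Subtype.val) hpq
      simpa using this
    have : f = (p : F[X]) * ((bb F x - 1) ^ N * f) + q * ((bb F x) ^ M * f) := by
      linear_combination (-f) * hpq'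
    rw [this]
    exact add_mem (mul_mem p.2 hN) (mul_mem q.2 hM)
  · refine Algebra.adjoin_le ?_
    rintro f (rfl | rfl)
    · exact bb_mem hx
    · exact yy_mem hx

end

end Pool.Agent.Lib.MP_340332_ag
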