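import Pool.Agent.Lib.MP_340332_ag.Cyl

open Polynomial

namespace Pool.Agent.Lib.MP_340332_ag

noncomputable section

variable {R F : Type*} [CommRing R] [Field F] [Algebra R F]

/-- The cylinder over the chart `O1`. -/
abbrev S1 (F : Type*) [Field F] [Algebra R F] (x : R) : Subalgebra R F[X][X] := cyl (O1 F x)

/-- The cylinder over the chart `O0`, twisted by `ψ` in the direction of `u`. -/
def S0 (R : Type*) [CommRing R] [Algebra R F] (g ψ : F) : Subalgebra R F[X][X] :=
  Algebra.adjoin R {X + C (C ψ), C (X - C g)}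

lemma S0_zero (g : F) : S0 R g 0 = cyl (O0 R g) := by
  rw [O0, cyl_adjoin, S0]
  congr 1
  simp

lemma C_mem_S0 {g ψ : F} {a : F[X]} (ha : a ∈ O0 R g) : C a ∈ S0 R g ψ := by
  unfold O0 at ha
  induction ha using Algebra.adjoin_induction with
  | mem a ha =>
    rw [Set.mem_singleton_iff] at ha
    subst ha
    exact Algebra.subset_adjoin (Or.inr rfl)
  | algebraMap r =>
    rw [← Polynomial.algebraMap_apply]
    exact Subalgebra.algebraMap_mem _ _
  | add a b _ _ iha ihb => rw [C_add]; exact add_mem iha ihb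
  | mul a b _ _ iha ihb => rw [C_mul]; exact mul_mem iha ihb

lemma X_mem_S0 {g ψ : F} : X + C (C ψ) ∈ S0 R g ψ := Algebra.subset_adjoin (Or.inl rfl)

/-- Criterion for an automorphism to carry an adjoined algebra onto another one. -/
lemma map_eq_of {C' : Type*} [CommRing C'] [Algebra R C'] (e : C' ≃ₐ[R] C')
    (G : Set C') (T : Subalgebra R C')
    (h1 : ∀ a ∈ G, e a ∈ T) (h2 : T ≤ (Algebra.adjoin R G).map (e : C' →ₐ[R] C')) :
    (Algebra.adjoin R G).map (e : C' →ₐ[R] C') = T := by
  refine le_antisymm ?_ h2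
  rw [AlgHom.map_adjoin]
  refine Algebra.adjoin_le ?_
  rintro _ ⟨a, ha, rfl⟩
  exact h1 a ha

lemma au_S1 {x : R} {P : F[X]} (hP : P ∈ O1 F x) :
    (S1 F x).map (au R P : F[X][X] →ₐ[R] F[X][X]) = S1 F x := by
  have hgen : S1 F x = Algebra.adjoin R (insert X ((C : F[X] →+* F[X][X]) ''
      {C (algebraMap R F x) * X, C (algebraMap R F x) * X ^ 2})) := by
    rw [S1, O1, cyl_adjoin]
  have hX : (X : F[X][X]) ∈ S1 F x := X_mem_cyl
  have hCP : C P ∈ S1 F x := C_mem_cyl hP
  have key : ∀ T : Subalgebra R F[X][X], T = S1 F x →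
      T.map (au R P : F[X][X] →ₐ[R] F[X][X]) = S1 F x := by
    intro T hT
    rw [hT]
    conv_lhs => rw [hgen]
    apply map_eq_of
    · rintro a (rfl | ⟨a, ha, rfl⟩)
      · rw [au_X]; exact add_mem hX hCP
      · rw [au_C]
        exact C_mem_cyl (Algebra.subset_adjoin ha)
    · rw [← hgen]
      conv_lhs => rw [hgen]
      refine Algebra.adjoin_le ?_
      rintro a (rfl | ⟨a, ha, rfl⟩)
      · refine Subalgebra.mem_map.2 ⟨X - C P, sub_mem hX hCP, ?_⟩
        simp
      · refine Subalgebra.mem_map.2 ⟨C a, C_mem_cyl (Algebra.subset_adjoin ha), ?_⟩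
        simp
  exact key _ rfl

lemma map_C_mem {x : R} {p : R[X]} :
    ((p.map (algebraMap R F)).map C : F[X][X]) ∈ S1 F x := by
  rw [S1, mem_cyl]
  intro n
  rw [coeff_map, coeff_map]
  exact C_mem _ _

lemma az_S1 {x : R} (p : R[X]) :
    (S1 F x).map (az R (p.map (algebraMap R F)) : F[X][X] →ₐ[R] F[X][X]) = S1 F x := by
  have hgen : S1 F x = Algebra.adjoin R (insert X ((C : F[X] →+* F[X][X]) ''
      {C (algebraMap R F x) * X, C (algebraMap R F x) * X ^ 2})) := by
    rw [S1, O1, cyl_adjoin]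
  have hX : (X : F[X][X]) ∈ S1 F x := X_mem_cyl
  set q : F[X][X] := (p.map (algebraMap R F)).map C with hq
  have hqm : q ∈ S1 F x := map_C_mem
  have hxm : (C (C (algebraMap R F x)) : F[X][X]) ∈ S1 F x := C_mem_cyl (C_mem _ _)
  have hb : (C (C (algebraMap R F x) * X) : F[X][X]) ∈ S1 F x := C_mem_cyl (bb_mem_O1 x)
  have hc : (C (C (algebraMap R F x) * X ^ 2) : F[X][X]) ∈ S1 F x := C_mem_cyl (cc_mem_O1 x)
  have hq' : az R (p.map (algebraMap R F)) q = q := by
    rw [hq]
    have : ∀ f : F[X], az R (p.map (algebraMap R F)) (f.map C) = f.map C := by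
      intro f
      induction f using Polynomial.induction_on' with
      | add f g hf hg => rw [Polynomial.map_add, map_add, hf, hg]
      | monomial n a =>
        rw [Polynomial.map_monomial, ← C_mul_X_pow_eq_monomial, map_mul, map_pow, az_CC, az_X]
    exact this _
  have e1 : az R (p.map (algebraMap R F)) (C (C (algebraMap R F x) * X)) =
      C (C (algebraMap R F x) * X) + C (C (algebraMap R F x)) * q := by
    rw [C_mul, map_mul, az_CC, az_CX, ← hq]; ring
  have e2 : az R (p.map (algebraMap R F)) (C (C (algebraMap R F x) * X ^ 2)) =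
      C (C (algebraMap R F x) * X ^ 2) + 2 * C (C (algebraMap R F x) * X) * q
        + C (C (algebraMap R F x)) * q ^ 2 := by
    rw [C_mul, C_pow, map_mul, map_pow, az_CC, az_CX, ← hq, C_mul]; ring
  have key : ∀ T : Subalgebra R F[X][X], T = S1 F x →
      T.map (az R (p.map (algebraMap R F)) : F[X][X] →ₐ[R] F[X][X]) = S1 F x := by
    intro T hT
    rw [hT]
    conv_lhs => rw [hgen]
    apply map_eq_of
    · rintro a (rfl | ⟨a, (rfl | rfl), rfl⟩)
      · rw [az_X]; exact hX
      · rw [e1]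
        exact add_mem hb (mul_mem hxm hqm)
      · rw [e2]
        refine add_mem (add_mem hc (mul_mem (mul_mem ?_ hb) hqm)) (mul_mem hxm (pow_mem hqm _))
        exact ofNat_mem _ 2
    · rw [← hgen]
      conv_lhs => rw [hgen]
      refine Algebra.adjoin_le ?_
      rintro a (rfl | ⟨a, (rfl | rfl), rfl⟩)
      · exact ⟨X, hX, by simp⟩
      · refine Subalgebra.mem_map.2 ⟨C (C (algebraMap R F x) * X) - C (C (algebraMap R F x)) * q,
          sub_mem hb (mul_mem hxm hqm), ?_⟩
        change az R (p.map (algebraMap R F)) _ = _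
        rw [map_sub, e1, map_mul (az R (p.map (algebraMap R F))) (C (C (algebraMap R F x))) q,
          az_CC, hq']
        ring
      · refine Subalgebra.mem_map.2
          ⟨C (C (algebraMap R F x) * X ^ 2) - 2 * C (C (algebraMap R F x) * X) * q
          + C (C (algebraMap R F x)) * q ^ 2, add_mem (sub_mem hc (mul_mem (mul_mem
            (ofNat_mem _ 2) hb) hqm)) (mul_mem hxm (pow_mem hqm _)), ?_⟩
        change az R (p.map (algebraMap R F)) _ = _
        have h2 : az R (p.map (algebraMap R F)) (2 : F[X][X]) = 2 := map_ofNat _ 2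
        rw [map_add, map_sub, e2,
          map_mul (az R (p.map (algebraMap R F))) (2 * C (C (algebraMap R F x) * X)) q,
          map_mul (az R (p.map (algebraMap R F))) 2 (C (C (algebraMap R F x) * X)), e1, h2,
          map_mul (az R (p.map (algebraMap R F))) (C (C (algebraMap R F x))) (q ^ 2),
          map_pow, az_CC, hq']
        ring
  exact key _ rfl

lemma au_S0 {g ψ ψ' : F} {P : F[X]} (hP : P + C ψ' - C ψ ∈ O0 R g) :
    (S0 R g ψ').map (au R P : F[X][X] →ₐ[R] F[X][X]) = S0 R g ψ := by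
  have h := C_mem_S0 (ψ := ψ) hP
  have h' := C_mem_S0 (ψ := ψ') hP
  rw [C_sub, C_add] at h h'
  have ht : ∀ ψ, C (X - C g) ∈ S0 R g ψ := fun ψ => C_mem_S0 (t_mem_O0 g)
  conv_lhs => rw [S0]
  apply map_eq_of
  · rintro a (rfl | rfl)
    · have : au R P (X + C (C ψ')) = (X + C (C ψ)) + (C P + C (C ψ') - C (C ψ)) := by
        rw [map_add, au_X, au_C]; ring
      rw [this]
      exact add_mem X_mem_S0 h
    · rw [au_C]; exact ht _
  · conv_lhs => rw [S0]
    refine Algebra.adjoin_le ?_
    rintro a (rfl | rfl)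
    · refine Subalgebra.mem_map.2
        ⟨(X + C (C ψ')) - (C P + C (C ψ') - C (C ψ)), sub_mem X_mem_S0 h', ?_⟩
      change au R P _ = _
      rw [map_sub, map_add, map_sub, map_add, au_X, au_C, au_C, au_C]; ring
    · exact ⟨C (X - C g), ht _, by simp⟩

/-- The shear `z ↦ z + u` moves the gluing function `g` to `g + ψ`. -/
lemma az_S0 {g ψ : F} :
    (S0 R g ψ).map (az R (X : F[X]) : F[X][X] →ₐ[R] F[X][X]) = S0 R (g + ψ) ψ := by
  have ht : ∀ g ψ : F, C (X - C g) ∈ S0 R g ψ := fun g ψ => C_mem_S0 (t_mem_O0 g)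
  conv_lhs => rw [S0]
  apply map_eq_of
  · rintro a (rfl | rfl)
    · rw [map_add, az_X, az_CC]; exact X_mem_S0
    · have : az R (X : F[X]) (C (X - C g)) = C (X - C (g + ψ)) + (X + C (C ψ)) := by
        rw [C_sub, map_sub, az_CX, az_CC, Polynomial.map_X, C_sub, C_add, C_add]; ring
      rw [this]
      exact add_mem (ht _ _) X_mem_S0
  · conv_lhs => rw [S0]
    refine Algebra.adjoin_le ?_
    rintro a (rfl | rfl)
    · refine Subalgebra.mem_map.2 ⟨X + C (C ψ), X_mem_S0, ?_⟩
      change az R (X : F[X]) _ = _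
      rw [map_add, az_X, az_CC]
    · refine Subalgebra.mem_map.2
        ⟨C (X - C g) - (X + C (C ψ)), sub_mem (ht _ _) X_mem_S0, ?_⟩
      change az R (X : F[X]) _ = _
      rw [map_sub, map_add, az_X, az_CC, C_sub, map_sub, az_CX, az_CC, Polynomial.map_X,
        C_sub, C_add, C_add]; ring

/-- The shear `z ↦ z + p(u)` with `p` over `R` preserves the untwisted chart. -/
lemma az_S0' {g : F} (p : R[X]) :
    (S0 R g 0).map (az R (p.map (algebraMap R F)) : F[X][X] →ₐ[R] F[X][X]) = S0 R g 0 := by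
  have ht : C (X - C g) ∈ S0 R g 0 := C_mem_S0 (t_mem_O0 g)
  have hX : (X : F[X][X]) ∈ S0 R g 0 := by
    have := X_mem_S0 (R := R) (g := g) (ψ := 0)
    simpa using this
  set q : F[X][X] := (p.map (algebraMap R F)).map C with hq
  have hqm : q ∈ S0 R g 0 := by
    rw [S0_zero, mem_cyl]
    intro n
    rw [hq, coeff_map, coeff_map]
    exact C_mem _ _
  have hq' : az R (p.map (algebraMap R F)) q = q := by
    rw [hq]
    have : ∀ f : F[X], az R (p.map (algebraMap R F)) (f.map C) = f.map C := by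
      intro f
      induction f using Polynomial.induction_on' with
      | add f g hf hg => rw [Polynomial.map_add, map_add, hf, hg]
      | monomial n a =>
        rw [Polynomial.map_monomial, ← C_mul_X_pow_eq_monomial, map_mul, map_pow, az_CC, az_X]
    exact this _
  conv_lhs => rw [S0]
  apply map_eq_of
  · rintro a (rfl | rfl)
    · rw [map_add, az_X, az_CC]; exact X_mem_S0
    · have : az R (p.map (algebraMap R F)) (C (X - C g)) = C (X - C g) + q := by
        rw [C_sub, map_sub, az_CX, az_CC, ← hq]; ring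
      rw [this]
      exact add_mem ht hqm
  · conv_lhs => rw [S0]
    refine Algebra.adjoin_le ?_
    rintro a (rfl | rfl)
    · refine Subalgebra.mem_map.2 ⟨X + C (C 0), X_mem_S0, ?_⟩
      change az R _ _ = _
      rw [map_add, az_X, az_CC]
    · refine Subalgebra.mem_map.2 ⟨C (X - C g) - q, sub_mem ht hqm, ?_⟩
      change az R _ _ = _
      rw [map_sub, hq', C_sub, map_sub, az_CX, az_CC, ← hq]; ring

lemma cyl_AA (x : R) (g : F) : cyl (AA x g) = S1 F x ⊓ S0 R g 0 := by
  rw [AA, cyl_inf, S0_zero]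

/-- General form of the Danielewski trick: the cylinders over the surfaces glued along
`g` and `g + ψ` are isomorphic as soon as `ψ` is, on both of them, the simple-line part of
a function of the double-line chart. -/
def cylIso {x : R} {g ψ : F} {P P' : F[X]} (hP : P ∈ O1 F x) (hP' : P' ∈ O1 F x)
    (h : P - C ψ ∈ O0 R g) (h' : P' - C ψ ∈ O0 R (g + ψ)) :
    (AA x g)[X] ≃ₐ[R] (AA x (g + ψ))[X] := by
  have e1 : (S1 F x ⊓ S0 R g 0).map (au R P : F[X][X] →ₐ[R] F[X][X]) =
      S1 F x ⊓ S0 R g ψ := by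
    rw [map_inf_eq, au_S1 hP]
    congr 1
    exact au_S0 (by simpa using h)
  have e2 : (S1 F x ⊓ S0 R g ψ).map (az R (X : F[X]) : F[X][X] →ₐ[R] F[X][X]) =
      S1 F x ⊓ S0 R (g + ψ) ψ := by
    rw [map_inf_eq, az_S0]
    congr 1
    have := az_S1 (F := F) (x := x) (X : R[X])
    rwa [Polynomial.map_X] at this
  have e3 : (S1 F x ⊓ S0 R (g + ψ) ψ).map (au R (-P') : F[X][X] →ₐ[R] F[X][X]) =
      S1 F x ⊓ S0 R (g + ψ) 0 := by
    rw [map_inf_eq, au_S1 (neg_mem hP')]
    congr 1
    refine au_S0 ?_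
    have := neg_mem h'
    rw [C_0, sub_zero]
    convert this using 1
    ring
  refine (cylEquiv _).trans ?_
  refine (Subalgebra.equivOfEq _ _ (cyl_AA x g)).trans ?_
  refine (restrictEquiv (au R P) e1).trans ?_
  refine (restrictEquiv (az R X) e2).trans ?_
  refine (restrictEquiv (au R (-P')) e3).trans ?_
  refine (Subalgebra.equivOfEq _ _ (cyl_AA x (g + ψ)).symm).trans ?_
  exact (cylEquiv _).symm

end

end Pool.Agent.Lib.MP_340332_ag
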