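import Pool.Agent.Lib.MP_340332_ag.Iso

open Polynomial

namespace Pool.Agent.Lib.MP_340332_ag

noncomputable section

set_option linter.unusedSectionVars false

variable {K R F : Type*} [Field K] [CommRing R] [IsDomain R] [Algebra K R]
  [Field F] [Algebra R F] [IsFractionRing R F]

/-- All elements of the subalgebra have constant coefficient in `R`. -/
def IntConst (S : Subalgebra R F[X]) : Prop := ∀ f ∈ S, ∃ r, algebraMap R F r = f.coeff 0

lemma intConst_AA (x : R) (g : F) : IntConst (AA x g) := fun _ hf => (O1_le_W x hf.1).1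

lemma unit_mem {S : Subalgebra R F[X]} (hS : IntConst S) {a : S} (ha : IsUnit a) :
    ∃ r : R, a = algebraMap R S r := by
  have h1 : IsUnit (a : F[X]) := ha.map S.val
  obtain ⟨c, hc, hca⟩ := Polynomial.isUnit_iff.1 h1
  obtain ⟨r, hr⟩ := hS a a.2
  refine ⟨r, ?_⟩
  apply Subtype.ext
  change (a : F[X]) = algebraMap R F[X] r
  rw [Polynomial.algebraMap_apply, hr, ← hca, coeff_C_zero]

section

variable {S T : Subalgebra R F[X]} (hT : IntConst T)
  (hR : Algebra.adjoin K {r : R | IsUnit r} = ⊤) (φ : S ≃+* T)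
  (hφ : ∀ c : K, φ (algebraMap R S (algebraMap K R c)) = algebraMap R T (algebraMap K R c))

include hT hR hφ in
lemma map_R (r : R) : ∃ r' : R, φ (algebraMap R S r) = algebraMap R T r' := by
  have hr : r ∈ Algebra.adjoin K {r : R | IsUnit r} := by rw [hR]; trivial
  induction hr using Algebra.adjoin_induction with
  | mem r hr =>
    have hr' : IsUnit r := hr
    exact unit_mem hT ((hr'.map (algebraMap R S)).map φ)
  | algebraMap c => exact ⟨_, hφ c⟩
  | add a b _ _ iha ihb =>
    obtain ⟨a', ha⟩ := iha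
    obtain ⟨b', hb⟩ := ihb
    exact ⟨a' + b', by rw [map_add, map_add, ha, hb, map_add]⟩
  | mul a b _ _ iha ihb =>
    obtain ⟨a', ha⟩ := iha
    obtain ⟨b', hb⟩ := ihb
    exact ⟨a' * b', by rw [map_mul, map_mul, ha, hb, map_mul]⟩

/-- The induced map on `R`, with values in `F`. -/
def kap : R →+* F :=
  (constantCoeff : F[X] →+* F).comp ((T.val : T →+* F[X]).comp ((φ : S →+* T).comp
    (algebraMap R S)))

lemma kap_apply (r : R) : kap φ r = (φ (algebraMap R S r) : F[X]).coeff 0 := rfl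

include hT hR hφ in
lemma kap_C (r : R) : (φ (algebraMap R S r) : F[X]) = C (kap φ r) := by
  obtain ⟨r', hr'⟩ := map_R hT hR φ hφ r
  rw [kap_apply, hr']
  change algebraMap R F[X] r' = C ((algebraMap R F[X] r').coeff 0)
  rw [Polynomial.algebraMap_apply, coeff_C_zero]

include hT hR hφ in
lemma kap_int (r : R) : ∃ r' : R, kap φ r = algebraMap R F r' := by
  obtain ⟨r', hr'⟩ := map_R hT hR φ hφ r
  refine ⟨r', ?_⟩
  rw [kap_apply, hr']
  change ((algebraMap R F[X] r').coeff 0) = _
  rw [Polynomial.algebraMap_apply, coeff_C_zero]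

lemma algebraMap_inj (S : Subalgebra R F[X]) : Function.Injective (algebraMap R S) := by
  intro a b hab
  have := congrArg (Subtype.val) hab
  change algebraMap R F[X] a = algebraMap R F[X] b at this
  rw [Polynomial.algebraMap_apply, Polynomial.algebraMap_apply] at this
  exact IsFractionRing.injective R F (C_injective this)

include hT hR hφ in
lemma kap_inj : Function.Injective (kap φ) := by
  rw [injective_iff_map_eq_zero]
  intro r hr
  have h := kap_C hT hR φ hφ r
  rw [hr, C_0] at h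
  have h1 : φ (algebraMap R S r) = 0 := Subtype.ext h
  rw [map_eq_zero_iff φ φ.injective] at h1
  exact (map_eq_zero_iff _ (algebraMap_inj S)).1 h1

include hT hR hφ in
/-- The isomorphism multiplies `z`-degrees by the degree of the image of a linear element. -/
lemma deg_formula {a : F} (ha : a ≠ 0) {b : S} (hb : (b : F[X]) = C a * X) (f : S) :
    (φ f : F[X]).natDegree = (f : F[X]).natDegree * (φ b : F[X]).natDegree := by
  classical
  set ft : F[X] := (f : F[X]).comp (C a⁻¹ * X) with hft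
  obtain ⟨r, hrmem, hr⟩ := IsLocalization.integerNormalization_spec (nonZeroDivisors R) ft
  set p : R[X] := IsLocalization.integerNormalization (nonZeroDivisors R) ft with hp
  have hrne : (r : R) ≠ 0 := nonZeroDivisors.ne_zero hrmem
  have hrF : algebraMap R F r ≠ 0 := by
    rw [Ne, map_eq_zero_iff _ (IsFractionRing.injective R F)]; exact hrne
  have hcomp : ft.comp (C a * X) = f := by
    rw [hft, comp_assoc, mul_comp, C_comp, X_comp, ← mul_assoc, ← C_mul, inv_mul_cancel₀ ha,
      C_1, one_mul, comp_X]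
  have hdegft : ft.natDegree = (f : F[X]).natDegree := by
    rw [hft, natDegree_comp, natDegree_C_mul_X _ (inv_ne_zero ha), mul_one]
  have hr' : p.map (algebraMap R F) = C (algebraMap R F r) * ft := by
    rw [hr, ← smul_eq]
  have hdegp : p.natDegree = (f : F[X]).natDegree := by
    rw [← hdegft, ← natDegree_map_eq_of_injective (IsFractionRing.injective R F) p, hr',
      natDegree_C_mul hrF]
  -- the relation in `S`
  have hS : algebraMap R S r * f = aeval b p := by
    apply Subtype.ext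
    have h1 : ((aeval b p : S) : F[X]) = aeval (b : F[X]) p := by
      rw [← Subalgebra.coe_val, ← Polynomial.aeval_algHom_apply]
    rw [h1, hb]
    change algebraMap R F[X] r * (f : F[X]) = _
    rw [Polynomial.algebraMap_apply, ← hcomp]
    have h2 : aeval (C a * X : F[X]) p = (p.map (algebraMap R F)).comp (C a * X) := by
      rw [comp, eval₂_map, aeval_def]
      rfl
    rw [h2, hr', mul_comp, C_comp]
  -- apply `φ`
  have h3 : ((φ (aeval b p) : T) : F[X]) = (p.map (kap φ)).comp (φ b : F[X]) := by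
    rw [comp, eval₂_map, aeval_def]
    have h4 : ((φ (eval₂ (algebraMap R S) b p) : T) : F[X]) =
        ((T.val : T →+* F[X]).comp (φ : S →+* T)) (eval₂ (algebraMap R S) b p) := rfl
    rw [h4, hom_eval₂]
    congr 1
    ext r
    · simp only [RingHom.comp_apply]
      congr 1
      exact kap_C hT hR φ hφ r
  have h5 : ((φ (algebraMap R S r * f) : T) : F[X]) = C (kap φ r) * (φ f : F[X]) := by
    rw [map_mul]
    change ((φ (algebraMap R S r) : T) : F[X]) * _ = _
    rw [kap_C hT hR φ hφ]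
  have hkr : kap φ r ≠ 0 := by
    rw [Ne, map_eq_zero_iff _ (kap_inj hT hR φ hφ)]; exact hrne
  rw [hS, h3] at h5
  have h6 := congrArg natDegree h5
  rw [natDegree_comp, natDegree_C_mul hkr,
    natDegree_map_eq_of_injective (kap_inj hT hR φ hφ), hdegp] at h6
  exact h6.symm

end

/-- The surfaces glued along `x⁻¹` and `x⁻²` are not isomorphic. -/
theorem not_iso (hR : Algebra.adjoin K {r : R | IsUnit r} = ⊤) {x : R} (hx0 : x ≠ 0)
    (hxu : ¬ IsUnit x) (xF : F) (hxFdef : xF = algebraMap R F x)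
    (φ : AA x xF⁻¹ ≃+* AA x (xF⁻¹ ^ 2))
    (hφ : ∀ c : K, φ (algebraMap R _ (algebraMap K R c)) = algebraMap R _ (algebraMap K R c)) :
    False := by
  have hxF' : algebraMap R F x ≠ 0 := by
    rw [Ne, map_eq_zero_iff _ (IsFractionRing.injective R F)]; exact hx0
  have hxF : xF ≠ 0 := by rw [hxFdef]; exact hxF'
  have hbb : bb F x = C xF * X := by rw [bb, hxFdef]
  have hCx : ∀ S : Subalgebra R F[X], C xF ∈ S := fun S => by rw [hxFdef]; exact C_mem S x
  have hcc : C xF * X ^ 2 ∈ O1 F x := by rw [hxFdef]; exact cc_mem_O1 x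
  -- linear elements
  let b : AA x xF⁻¹ := ⟨bb F x, by rw [hxFdef]; exact bb_mem hxF'⟩
  have hb : (b : F[X]) = C xF * X := hbb
  have hb'mem : (C (xF ^ 2) * X : F[X]) ∈ AA x (xF⁻¹ ^ 2) := by
    constructor
    · have : (C (xF ^ 2) * X : F[X]) = C xF * bb F x := by rw [hbb, C_pow]; ring
      rw [this]
      exact mul_mem (hCx _) (bb_mem_O1 x)
    · have : (C (xF ^ 2) * X : F[X]) = C xF ^ 2 * (X - C (xF⁻¹ ^ 2)) + 1 := by
        have h1 : C xF ^ 2 * C (xF⁻¹ ^ 2) = (1 : F[X]) := by
          rw [← C_pow, ← C_mul, ← mul_pow, mul_inv_cancel₀ hxF, one_pow, C_1]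
        rw [C_pow, mul_sub, h1]; ring
      rw [this]
      exact add_mem (mul_mem (pow_mem (hCx _) _) (t_mem_O0 _)) (one_mem _)
  let b' : AA x (xF⁻¹ ^ 2) := ⟨C (xF ^ 2) * X, hb'mem⟩
  have hb' : (b' : F[X]) = C (xF ^ 2) * X := rfl
  have hφ' : ∀ c : K, φ.symm (algebraMap R _ (algebraMap K R c)) =
      algebraMap R _ (algebraMap K R c) := by
    intro c
    rw [← hφ c, RingEquiv.symm_apply_apply]
  have hd := deg_formula (intConst_AA _ _) hR φ hφ hxF hb
  have hd' := deg_formula (intConst_AA _ _) hR φ.symm hφ' (pow_ne_zero 2 hxF) hb'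
  have hdb := hd' (φ b)
  rw [RingEquiv.symm_apply_apply, hb, natDegree_C_mul_X _ hxF] at hdb
  have hd1 : (φ b : F[X]).natDegree = 1 := Nat.eq_one_of_mul_eq_one_right hdb.symm
  have hd1' : (φ.symm b' : F[X]).natDegree = 1 := Nat.eq_one_of_mul_eq_one_left hdb.symm
  rw [hd1] at hd
  rw [hd1'] at hd'
  simp only [mul_one] at hd hd'
  -- the quadratic element
  have hwmem : (C (xF ^ 3) * X ^ 2 - C xF * X : F[X]) ∈ AA x (xF⁻¹ ^ 2) := by
    constructor
    · have : (C (xF ^ 3) * X ^ 2 - C xF * X : F[X]) =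
          C xF ^ 2 * (C xF * X ^ 2) - bb F x := by rw [hbb, C_pow]; ring
      rw [this]
      exact sub_mem (mul_mem (pow_mem (hCx _) _) hcc) (bb_mem_O1 x)
    · have : (C (xF ^ 3) * X ^ 2 - C xF * X : F[X]) =
          C xF * (X - C (xF⁻¹ ^ 2)) + C xF ^ 3 * (X - C (xF⁻¹ ^ 2)) ^ 2 := by
        have h1 : C xF ^ 2 * C (xF⁻¹ ^ 2) = (1 : F[X]) := by
          rw [← C_pow, ← C_mul, ← mul_pow, mul_inv_cancel₀ hxF, one_pow, C_1]
        rw [C_pow]
        linear_combination (2 * C xF * X - C xF * C (xF⁻¹ ^ 2)) * h1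
      rw [this]
      exact add_mem (mul_mem (hCx _) (t_mem_O0 _))
        (mul_mem (pow_mem (hCx _) _) (pow_mem (t_mem_O0 _) _))
  let w : AA x (xF⁻¹ ^ 2) := ⟨_, hwmem⟩
  have hw : (w : F[X]) = C (xF ^ 3) * X ^ 2 - C xF * X := rfl
  have hwdeg : (w : F[X]).natDegree ≤ 2 := by
    rw [hw]
    compute_degree
  set f : AA x xF⁻¹ := φ.symm w with hf
  have hfdeg : (f : F[X]).natDegree ≤ 2 := by rw [hf, hd']; exact hwdeg
  -- leading coefficient of `f` is divisible by `x ^ 2`
  have hf2 : ∃ r : R, (f : F[X]).coeff 2 = algebraMap R F (x ^ 2 * r) := by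
    obtain ⟨⟨r0, h0⟩, ⟨r1, h1⟩, -⟩ := O1_le_W x f.2.1
    obtain ⟨s, hs⟩ := O0_eval f.2.2
    refine ⟨s - r1 - r0, ?_⟩
    have he : (f : F[X]).eval xF⁻¹ = (f : F[X]).coeff 0 + (f : F[X]).coeff 1 * xF⁻¹ +
        (f : F[X]).coeff 2 * xF⁻¹ ^ 2 := by
      rw [eval_eq_sum_range' (Nat.lt_succ_of_le hfdeg)]
      simp [Finset.sum_range_succ]
    rw [← h0, ← h1, ← hs, map_mul, ← hxFdef] at he
    simp only [map_mul, map_pow, map_sub, ← hxFdef]
    field_simp at he
    linear_combination -he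
  obtain ⟨r, hr⟩ := hf2
  -- coefficient of `φ b`
  have hB : ∃ s : R, (φ b : F[X]).coeff 1 = algebraMap R F (x ^ 2 * s) := by
    obtain ⟨⟨r0, h0⟩, -, -⟩ := O1_le_W x (φ b).2.1
    obtain ⟨s, hs⟩ := O0_eval (φ b).2.2
    refine ⟨s - r0, ?_⟩
    have he : (φ b : F[X]).eval (xF⁻¹ ^ 2) = (φ b : F[X]).coeff 0 +
        (φ b : F[X]).coeff 1 * xF⁻¹ ^ 2 := by
      rw [eval_eq_sum_range' (Nat.lt_succ_of_le hd1.le)]
      simp [Finset.sum_range_succ]
    rw [← h0, ← hs] at he
    simp only [map_mul, map_pow, map_sub, ← hxFdef]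
    field_simp at he
    linear_combination -he
  obtain ⟨s, hs⟩ := hB
  obtain ⟨t, ht⟩ := kap_int (intConst_AA _ _) hR φ hφ r
  have hkC := kap_C (intConst_AA _ _) hR φ hφ r
  -- the element `f - r b²` has degree at most one
  set u : AA x xF⁻¹ := f - algebraMap R _ r * b ^ 2 with hu
  have hu' : (u : F[X]) = (f : F[X]) - C (algebraMap R F (x ^ 2 * r)) * X ^ 2 := by
    have : (u : F[X]) = (f : F[X]) - algebraMap R F[X] r * (bb F x) ^ 2 := rfl
    rw [this, Polynomial.algebraMap_apply, hbb, map_mul, map_pow, ← hxFdef]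
    simp only [C_mul, C_pow]
    ring
  have hudeg : (u : F[X]).natDegree ≤ 1 := by
    rw [natDegree_le_iff_coeff_eq_zero]
    intro N hN
    rw [hu', coeff_sub, coeff_C_mul_X_pow]
    rcases Nat.eq_or_lt_of_le (Nat.succ_le_of_lt hN) with h2 | h2
    · have h2' : N = 2 := by omega
      rw [if_pos h2', h2', hr, sub_self]
    · rw [if_neg (by omega), sub_zero]
      exact coeff_eq_zero_of_natDegree_lt (by omega)
  have hφu : (φ u : F[X]) = (w : F[X]) - C (kap φ r) * (φ b : F[X]) ^ 2 := by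
    have h1 : φ u = w - φ (algebraMap R _ r) * (φ b) ^ 2 := by
      rw [hu, map_sub, map_mul, map_pow, hf, RingEquiv.apply_symm_apply]
    have h2 : (φ u : F[X]) = (w : F[X]) - (φ (algebraMap R _ r) : F[X]) * (φ b : F[X]) ^ 2 := by
      rw [h1]; rfl
    rw [h2, hkC]
  have hφudeg : (φ u : F[X]).natDegree ≤ 1 := by rw [hd]; exact hudeg
  have hc := coeff_eq_zero_of_natDegree_lt (lt_of_le_of_lt hφudeg one_lt_two)
  rw [hφu, coeff_sub, coeff_C_mul, hw] at hc
  have hB2 : ((φ b : F[X]) ^ 2).coeff 2 = ((φ b : F[X]).coeff 1) ^ 2 := by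
    have := coeff_pow_of_natDegree_le (p := (φ b : F[X])) (n := 1) (m := 2) hd1.le
    simpa using this
  rw [hB2, hs, ht] at hc
  simp only [coeff_sub, coeff_C_mul, coeff_X_pow, if_true, mul_one, coeff_X] at hc
  rw [if_neg (by norm_num), mul_zero, sub_zero] at hc
  simp only [map_mul, map_pow, ← hxFdef] at hc
  have h1 : xF ^ 3 * (1 - xF * (algebraMap R F t * algebraMap R F s ^ 2)) = 0 := by
    linear_combination hc
  have h2 := (mul_eq_zero.1 h1).resolve_left (pow_ne_zero 3 hxF)
  apply hxu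
  refine IsUnit.of_mul_eq_one (t * s ^ 2) ?_
  apply IsFractionRing.injective R F
  rw [map_mul, map_mul, map_pow, map_one, ← hxFdef]
  linear_combination -h2

end

end Pool.Agent.Lib.MP_340332_ag
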