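import Pool.Agent.Lib.MP_340332_ag.TypeB2
import Pool.Agent.Lib.MP_340332_ag.NonIso

open Polynomial

namespace Pool.Agent.Lib.MP_340332_ag

noncomputable section

section

variable {R F : Type*} [CommRing R] [Field F] [Algebra R F]

/-- `b` as an element of the surface algebra -/
def bY {x : R} (hx : algebraMap R F x ≠ 0) : AA x (algebraMap R F x)⁻¹ := ⟨bb F x, bb_mem hx⟩

/-- `y` as an element of the surface algebra -/
def yY {x : R} (hx : algebraMap R F x ≠ 0) : AA x (algebraMap R F x)⁻¹ := ⟨yy F x, yy_mem hx⟩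

/-- The automorphism `z ↦ z + u ^ k` of `Y × 𝔸¹`. -/
def shear (x : R) (g : F) (k : ℕ) : (AA x g)[X] ≃ₐ[R] (AA x g)[X] := by
  have e : (cyl (AA x g)).map
      (az R (((X : R[X]) ^ k).map (algebraMap R F)) : F[X][X] →ₐ[R] F[X][X]) =
      cyl (AA x g) := by
    rw [cyl_AA, map_inf_eq, az_S1, az_S0']
  exact (cylEquiv _).trans ((restrictEquiv _ e).trans (cylEquiv _).symm)

lemma shear_spec (x : R) (g : F) (k : ℕ) (f : (AA x g)[X]) :
    (cylEquiv (AA x g) (shear x g k f) : F[X][X]) =
      az R (((X : R[X]) ^ k).map (algebraMap R F)) (cylEquiv (AA x g) f) := by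
  rw [shear]
  simp only [AlgEquiv.trans_apply, AlgEquiv.apply_symm_apply]
  rfl

lemma shear_b {x : R} (hx : algebraMap R F x ≠ 0) (k : ℕ) : shear x _ k (C (bY hx)) =
    C (bY hx) + C (algebraMap R _ x) * X ^ k := by
  apply (cylEquiv _).injective
  apply Subtype.ext
  rw [shear_spec]
  simp only [cylEquiv_apply, Polynomial.map_add, Polynomial.map_mul, Polynomial.map_pow,
    Polynomial.map_C, Polynomial.map_X]
  change az R (X ^ k) (C (bb F x)) = C (bb F x) + C (algebraMap R F[X] x) * X ^ k
  rw [bb, C_mul, map_mul, az_CC, az_CX, Polynomial.algebraMap_apply, Polynomial.map_pow,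
    Polynomial.map_X]
  ring

end

section

variable {K R F : Type*} [Field K] [CharZero K] [CommRing R] [IsDomain R] [Algebra K R]
  [Field F] [Algebra R F] [IsFractionRing R F] [Algebra K F] [IsScalarTower K R F]

theorem surfData {x : R} (hx0 : x ≠ 0) (hx : algebraMap R F x ≠ 0) (ρ : R →ₐ[K] K)
    (hρ : ρ x = 0) (hker : ∀ r, ρ r = 0 → ∃ s, r = x * s) :
    SurfData K x ρ (ev (IsFractionRing.injective R F) x (algebraMap R F x)⁻¹ ρ) (bY hx)
      (yY hx) where
  hρ := hρ
  hker := hker
  he r := by
    rw [ev_apply, AlgHom.commutes]; rfl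
  hrel := by
    apply Subtype.ext
    exact rel x
  hgen := by
    rw [eq_top_iff]
    rintro ⟨f, hf⟩ -
    have key : ∀ f : F[X], f ∈ Algebra.adjoin R {bb F x, yy F x} →
        ∀ hf : f ∈ AA x (algebraMap R F x)⁻¹,
          (⟨f, hf⟩ : AA x (algebraMap R F x)⁻¹) ∈ Algebra.adjoin R {bY hx, yY hx} := by
      intro f hf
      induction hf using Algebra.adjoin_induction with
      | mem f hf =>
        intro hf'
        rcases hf with rfl | rfl
        · exact Algebra.subset_adjoin (Or.inl rfl)
        · exact Algebra.subset_adjoin (Or.inr rfl)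
      | algebraMap r => intro hf'; exact Subalgebra.algebraMap_mem _ r
      | add f h hf hh ihf ihh =>
        intro hfh
        rw [← AA_eq_adjoin hx] at hf hh
        exact add_mem (ihf hf) (ihh hh)
      | mul f h hf hh ihf ihh =>
        intro hfh
        rw [← AA_eq_adjoin hx] at hf hh
        exact mul_mem (ihf hf) (ihh hh)
    have hf' := hf
    rw [AA_eq_adjoin hx] at hf'
    exact key f hf' hf
  hxne := by
    rw [Ne, map_eq_zero_iff _ (algebraMap_inj _)]
    exact hx0
  hvan α β γ h := by
    refine ev_vanish _ _ hx ρ hρ α β γ ?_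
    have := congrArg (Subtype.val) h
    exact this
  hshear k := ⟨(shear x (algebraMap R F x)⁻¹ k).restrictScalars K, by
    rw [AlgEquiv.restrictScalars_apply, shear_b]⟩

end

end

end Pool.Agent.Lib.MP_340332_ag
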