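import Pool.Agent.Lib.MP_340332_ag.Defs

open Polynomial

namespace Pool.Agent.Lib.MP_340332_ag

noncomputable section

variable {R F : Type*} [CommRing R] [Field F] [Algebra R F]

/-- The chart at the double line: `R[x z, x z ^ 2]`. -/
def O1 (F : Type*) [Field F] [Algebra R F] (x : R) : Subalgebra R F[X] :=
  Algebra.adjoin R {C (algebraMap R F x) * X, C (algebraMap R F x) * X ^ 2}

/-- The chart at the simple line: `R[z - g]`. -/
def O0 (R : Type*) [CommRing R] {F : Type*} [Field F] [Algebra R F] (g : F) :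
    Subalgebra R F[X] :=
  Algebra.adjoin R {X - C g}

/-- The glued surface. -/
def AA (x : R) (g : F) : Subalgebra R F[X] := O1 F x ⊓ O0 R g

/-- Coefficient conditions in degrees 0, 1, 2 satisfied by the elements of `O1`. -/
def W (F : Type*) [Field F] [Algebra R F] (x : R) : Subalgebra R F[X] where
  carrier := {f | (∃ r, algebraMap R F r = f.coeff 0) ∧
    (∃ r, algebraMap R F (x * r) = f.coeff 1) ∧ (∃ r, algebraMap R F (x * r) = f.coeff 2)}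
  mul_mem' := by
    rintro f h ⟨⟨a, ha⟩, ⟨b, hb⟩, ⟨c, hc⟩⟩ ⟨⟨a', ha'⟩, ⟨b', hb'⟩, ⟨c', hc'⟩⟩
    refine ⟨⟨a * a', ?_⟩, ⟨a * b' + b * a', ?_⟩, ⟨a * c' + x * b * b' + c * a', ?_⟩⟩
    · rw [mul_coeff_zero, map_mul, ha, ha']
    · rw [mul_coeff_one, ← ha, ← ha', ← hb, ← hb']
      simp only [map_mul, map_add]; ring
    · have h2 : (f * h).coeff 2 = f.coeff 0 * h.coeff 2 + f.coeff 1 * h.coeff 1 +
          f.coeff 2 * h.coeff 0 := by
        rw [coeff_mul]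
        simp [Finset.Nat.antidiagonal_succ]
        ring
      rw [h2, ← ha, ← ha', ← hb, ← hb', ← hc, ← hc']
      simp only [map_mul, map_add]; ring
  add_mem' := by
    rintro f h ⟨⟨a, ha⟩, ⟨b, hb⟩, ⟨c, hc⟩⟩ ⟨⟨a', ha'⟩, ⟨b', hb'⟩, ⟨c', hc'⟩⟩
    refine ⟨⟨a + a', ?_⟩, ⟨b + b', ?_⟩, ⟨c + c', ?_⟩⟩
    · rw [coeff_add, map_add, ha, ha']
    · rw [coeff_add, mul_add, map_add, hb, hb']
    · rw [coeff_add, mul_add, map_add, hc, hc']
  algebraMap_mem' := by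
    intro r
    refine ⟨⟨r, ?_⟩, ⟨0, ?_⟩, ⟨0, ?_⟩⟩
    · rw [Polynomial.algebraMap_apply, coeff_C_zero]
    · rw [Polynomial.algebraMap_apply, coeff_C, if_neg one_ne_zero]; simp
    · rw [Polynomial.algebraMap_apply, coeff_C, if_neg two_ne_zero]; simp

lemma O1_le_W (x : R) : O1 F x ≤ W F x := by
  refine Algebra.adjoin_le ?_
  rintro f (rfl | rfl)
  · refine ⟨⟨0, ?_⟩, ⟨1, ?_⟩, ⟨0, ?_⟩⟩ <;> simp [coeff_X]
  · refine ⟨⟨0, ?_⟩, ⟨0, ?_⟩, ⟨1, ?_⟩⟩ <;> simp [coeff_X_pow]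

lemma O0_eval {g : F} {f : F[X]} (hf : f ∈ O0 R g) : ∃ r, algebraMap R F r = f.eval g := by
  induction hf using Algebra.adjoin_induction with
  | mem f hf =>
    rw [Set.mem_singleton_iff] at hf
    exact ⟨0, by simp [hf]⟩
  | algebraMap r => exact ⟨r, by simp [Polynomial.algebraMap_apply]⟩
  | add f h _ _ ihf ihh =>
    obtain ⟨a, ha⟩ := ihf
    obtain ⟨b, hb⟩ := ihh
    exact ⟨a + b, by rw [map_add, eval_add, ha, hb]⟩
  | mul f h _ _ ihf ihh =>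
    obtain ⟨a, ha⟩ := ihf
    obtain ⟨b, hb⟩ := ihh
    exact ⟨a * b, by rw [map_mul, eval_mul, ha, hb]⟩

end

end Pool.Agent.Lib.MP_340332_ag
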