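import Pool.Agent.Lib.MP_340332_ag.Iso

open Polynomial

namespace Pool.Agent.Lib.MP_340332_ag

noncomputable section

section Conj

variable {K B : Type*} [Field K] [CommRing B] [Algebra K B]

/-- Conjugate of a derivation by an automorphism. -/
def conj (σ : B ≃ₐ[K] B) (D : Derivation K B B) : Derivation K B B :=
  Derivation.mk' (σ.toLinearMap ∘ₗ (D : B →ₗ[K] B) ∘ₗ σ.symm.toLinearMap) (by
    intro a b
    simp only [LinearMap.coe_comp, Function.comp_apply, AlgEquiv.toLinearMap_apply,
      Derivation.coeFn_coe, map_mul, Derivation.leibniz, smul_eq_mul, map_add,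
      AlgEquiv.apply_symm_apply])

lemma conj_apply (σ : B ≃ₐ[K] B) (D : Derivation K B B) (b : B) :
    conj σ D b = σ (D (σ.symm b)) := rfl

lemma IsLND.conj {D : Derivation K B B} (hD : IsLND D) (σ : B ≃ₐ[K] B) :
    IsLND (conj σ D) := by
  intro b
  obtain ⟨n, hn⟩ := hD (σ.symm b)
  refine ⟨n, ?_⟩
  have key : ∀ (n : ℕ) (c : B), (fun c : B => (MP_340332_ag.conj σ D) c)^[n] c =
      σ ((fun c : B => D c)^[n] (σ.symm c)) := by
    intro n
    induction n with
    | zero => intro c; simp
    | succ n ih =>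
      intro c
      rw [Function.iterate_succ_apply, Function.iterate_succ_apply, ih, conj_apply,
        AlgEquiv.symm_apply_apply]
  rw [key, hn, map_zero]

lemma conj_mem_HDstar {D : Derivation K B B} (hD : IsLND D) {s : B} (hs : D s = 1)
    (σ : B ≃ₐ[K] B) {a : B} (ha : D a = 0) : σ a ∈ HDstar K B := by
  refine Algebra.subset_adjoin ⟨conj σ D, hD.conj σ, ⟨σ s, ?_⟩, ?_⟩
  · rw [conj_apply, AlgEquiv.symm_apply_apply, hs, map_one]
  · rw [conj_apply, AlgEquiv.symm_apply_apply, ha, map_zero]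

end Conj

section DU

variable (K A : Type*) [Field K] [CommRing A] [Algebra K A]

/-- The derivation `∂/∂u` of `A[u]`. -/
def du : Derivation K A[X] A[X] :=
  Derivation.restrictScalars K (Polynomial.derivative' : Derivation A A[X] A[X])

lemma du_apply (f : A[X]) : du K A f = derivative f := rfl

lemma isLND_du : IsLND (du K A) := by
  intro f
  refine ⟨f.natDegree + 1, ?_⟩
  have : (fun c : A[X] => (du K A) c) = (derivative : A[X] → A[X]) := rfl
  rw [this]
  exact Polynomial.iterate_derivative_eq_zero (Nat.lt_succ_self _)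

end DU

section Main

variable {K R F : Type*} [Field K] [CommRing R] [Algebra K R]
  [Field F] [Algebra R F] [Algebra K F] [IsScalarTower K R F]

/-- The value at `z = 0`. -/
def ev0 (hinj : Function.Injective (algebraMap R F)) (x : R) (g : F) : AA x g →ₐ[R] R :=
  ((Algebra.botEquivOfInjective hinj : (⊥ : Subalgebra R F) ≃ₐ[R] R) :
      (⊥ : Subalgebra R F) →ₐ[R] R).comp
    ((((aeval (0 : F) : F[X] →ₐ[F] F).restrictScalars R).comp (AA x g).val).codRestrict ⊥ (by
      intro f
      obtain ⟨⟨r, hr⟩, -, -⟩ := O1_le_W x f.2.1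
      rw [Algebra.mem_bot]
      refine ⟨r, ?_⟩
      rw [hr]
      simp [coeff_zero_eq_aeval_zero]))

lemma ev0_spec (hinj : Function.Injective (algebraMap R F)) (x : R) (g : F) (f : AA x g) :
    algebraMap R F (ev0 hinj x g f) = (f : F[X]).coeff 0 := by
  have h1 : ∀ s : (⊥ : Subalgebra R F),
      algebraMap R F ((Algebra.botEquivOfInjective hinj : (⊥ : Subalgebra R F) ≃ₐ[R] R) s) =
        (s : F) := by
    intro s
    obtain ⟨r, hr⟩ := (Algebra.mem_bot.1 s.2)
    have hs : s = algebraMap R (⊥ : Subalgebra R F) r := by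
      apply Subtype.ext
      rw [← hr]; rfl
    rw [hs, AlgEquiv.commutes]
    rfl
  refine (h1 _).trans ?_
  simp [coeff_zero_eq_aeval_zero]

/-- Evaluation at the singular point. -/
def ev (hinj : Function.Injective (algebraMap R F)) (x : R) (g : F) (ρ : R →ₐ[K] K) :
    AA x g →ₐ[K] K :=
  ρ.comp ((ev0 hinj x g).restrictScalars K)

lemma ev_apply (hinj : Function.Injective (algebraMap R F)) (x : R) (g : F) (ρ : R →ₐ[K] K)
    (f : AA x g) : ev hinj x g ρ f = ρ (ev0 hinj x g f) := rfl

/-- Linear independence of the differentials of `x, y, b` at the singular point. -/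
lemma ev_vanish [CharZero K] (hinj : Function.Injective (algebraMap R F)) {x : R} (g : F)
    (hx : algebraMap R F x ≠ 0) (ρ : R →ₐ[K] K) (hρ : ρ x = 0) (α β γ : AA x g)
    (h : (α : F[X]) * yy F x + algebraMap R F[X] x * (β : F[X]) =
      (3 * bb F x ^ 2 - 2 * bb F x) * (γ : F[X])) :
    ev hinj x g ρ α = 0 ∧ ev hinj x g ρ β = 0 ∧ ev hinj x g ρ γ = 0 := by
  have hα := ev0_spec hinj x g α
  have hβ := ev0_spec hinj x g β
  have hγ := ev0_spec hinj x g γ
  obtain ⟨-, ⟨b1, hb1⟩, ⟨b2, hb2⟩⟩ := O1_le_W x β.2.1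
  obtain ⟨-, ⟨c1, hc1⟩, -⟩ := O1_le_W x γ.2.1
  set a0 := ev0 hinj x g α
  set b0 := ev0 hinj x g β
  set c0 := ev0 hinj x g γ
  set xF := algebraMap R F x with hxF
  -- rewrite the relation in expanded form
  have h' : (C (xF ^ 2) * (α : F[X])) * X ^ 3 - (C xF * (α : F[X])) * X ^ 2 +
      C xF * (β : F[X]) =
      (C (3 * xF ^ 2) * (γ : F[X])) * X ^ 2 - (C (2 * xF) * (γ : F[X])) * X ^ 1 := by
    rw [yy, bb, Polynomial.algebraMap_apply, ← hxF] at h
    have c2 : (C (2 : F) : F[X]) = 2 := map_ofNat C 2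
    have c3 : (C (3 : F) : F[X]) = 3 := map_ofNat C 3
    simp only [C_mul, C_pow, c2, c3]
    linear_combination h
  have e0 := congrArg (fun f => coeff f 0) h'
  have e1 := congrArg (fun f => coeff f 1) h'
  have e2 := congrArg (fun f => coeff f 2) h'
  simp only [coeff_add, coeff_sub, coeff_mul_X_pow', coeff_C_mul] at e0 e1 e2
  norm_num at e0 e1 e2
  -- degree zero
  have hb0 : b0 = 0 := by
    apply hinj
    rw [hβ, map_zero]
    rcases e0 with h0 | h0
    · exact absurd h0 hx
    · exact h0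
  -- degree one
  have hc0 : x * b1 = -2 * c0 := by
    apply hinj
    rw [hb1, map_mul, hγ, map_neg, map_ofNat]
    have : xF * ((β : F[X]).coeff 1) = xF * (-2 * (γ : F[X]).coeff 0) := by
      rw [e1]; ring
    exact mul_left_cancel₀ hx this
  have ha0 : a0 = x * b2 + 2 * (x * c1) - 3 * x * c0 := by
    apply hinj
    have m2 : algebraMap R F 2 = 2 := map_ofNat _ 2
    have m3 : algebraMap R F 3 = 3 := map_ofNat _ 3
    rw [hα, map_sub, map_add, hb2, map_mul (algebraMap R F) 2, hc1,
      map_mul (algebraMap R F) (3 * x), map_mul (algebraMap R F) 3, m2, m3, hγ, ← hxF]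
    have : xF * ((α : F[X]).coeff 0) = xF * ((β : F[X]).coeff 2 + 2 * (γ : F[X]).coeff 1 -
        3 * xF * (γ : F[X]).coeff 0) := by
      linear_combination -e2
    exact mul_left_cancel₀ hx this
  have hρc : ρ c0 = 0 := by
    have h1 := congrArg ρ hc0
    rw [map_mul, hρ, zero_mul, map_mul, map_neg, map_ofNat] at h1
    have : (2 : K) ≠ 0 := two_ne_zero
    have h2 : (2 : K) * ρ c0 = 0 := by linear_combination h1
    exact (mul_eq_zero.1 h2).resolve_left this
  refine ⟨?_, ?_, ?_⟩
  · rw [ev_apply]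
    change ρ a0 = 0
    rw [ha0]
    simp [hρ]
  · rw [ev_apply]
    change ρ b0 = 0
    rw [hb0, map_zero]
  · rw [ev_apply]
    exact hρc

end Main

end

end Pool.Agent.Lib.MP_340332_ag
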