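import Pool.Agent.Lib.MP_340332_ag.TypeB

open Polynomial

namespace Pool.Agent.Lib.MP_340332_ag

noncomputable section

section Abstract

variable {K R A : Type*} [Field K] [CharZero K] [CommRing R] [Algebra K R] [CommRing A]
  [IsDomain A] [Algebra R A] [Algebra K A] [IsScalarTower K R A]

/-- The data of the surface with its singular point, in abstract form. -/
structure SurfData (K : Type*) {R A : Type*} [Field K] [CommRing R] [Algebra K R] [CommRing A]
    [Algebra R A] [Algebra K A] (x : R) (ρ : R →ₐ[K] K) (e : A →ₐ[K] K) (b y : A) : Prop where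
  hρ : ρ x = 0
  hker : ∀ r, ρ r = 0 → ∃ s, r = x * s
  he : ∀ r, e (algebraMap R A r) = ρ r
  hrel : algebraMap R A x * y = b ^ 2 * (b - 1)
  hgen : Algebra.adjoin R {b, y} = ⊤
  hxne : algebraMap R A x ≠ 0
  hvan : ∀ α β γ : A, α * y + algebraMap R A x * β = (3 * b ^ 2 - 2 * b) * γ →
    e α = 0 ∧ e β = 0 ∧ e γ = 0
  hshear : ∀ k : ℕ, ∃ σ : A[X] ≃ₐ[K] A[X], σ (C b) = C b + C (algebraMap R A x) * X ^ k

variable {x : R} {ρ : R →ₐ[K] K} {e : A →ₐ[K] K} {b y : A} (S : SurfData K x ρ e b y)

include S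

/-- A derivation of `Y × 𝔸¹` sends `x`, `y`, `b` into the ideal of `p × 𝔸¹`. -/
lemma D_gens (D : Derivation K A[X] A[X]) :
    (mapAlgHom e) (D (C (algebraMap R A x))) = 0 ∧
    (mapAlgHom e) (D (C y)) = 0 ∧ (mapAlgHom e) (D (C b)) = 0 := by
  have hrel : (C (algebraMap R A x) : A[X]) * C y = C b ^ 2 * (C b - 1) := by
    rw [← C_mul, S.hrel, C_mul, C_pow, C_sub, C_1]
  have h := congrArg D hrel
  rw [Derivation.leibniz, Derivation.leibniz, Derivation.leibniz_pow, Derivation.map_sub,
    Derivation.map_one_eq_zero] at h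
  simp only [smul_eq_mul] at h
  have h' : D (C (algebraMap R A x)) * C y + C (algebraMap R A x) * D (C y) =
      C (3 * b ^ 2 - 2 * b) * D (C b) := by
    have c2 : (C (2 : A) : A[X]) = 2 := map_ofNat C 2
    have c3 : (C (3 : A) : A[X]) = 3 := map_ofNat C 3
    rw [C_sub, C_mul, C_mul, c2, c3, C_pow]
    simp only [nsmul_eq_mul, Nat.cast_ofNat] at h
    linear_combination h
  have hn : ∀ n, e ((D (C (algebraMap R A x))).coeff n) = 0 ∧ e ((D (C y)).coeff n) = 0 ∧
      e ((D (C b)).coeff n) = 0 := by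
    intro n
    have hc := congrArg (fun f => f.coeff n) h'
    simp only [coeff_add, coeff_mul_C, coeff_C_mul] at hc
    exact S.hvan _ _ _ hc
  refine ⟨?_, ?_, ?_⟩
  · ext n; simpa using (hn n).1
  · ext n; simpa using (hn n).2.1
  · ext n; simpa using (hn n).2.2

lemma D_C (D : Derivation K A[X] A[X]) (a : A) : (mapAlgHom e) (D (C a)) = 0 := by
  obtain ⟨hDx, hDy, hDb⟩ := D_gens S D
  have hCr : ∀ r : R, (mapAlgHom e) (D (C (algebraMap R A r))) = 0 := by
    intro r
    obtain ⟨s, hs⟩ := S.hker (r - algebraMap K R (ρ r)) (by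
      rw [map_sub, AlgHom.commutes]; simp)
    have hr : r = algebraMap K R (ρ r) + x * s := by rw [← hs]; ring
    have : (C (algebraMap R A r) : A[X]) =
        algebraMap K A[X] (ρ r) + C (algebraMap R A x) * C (algebraMap R A s) := by
      conv_lhs => rw [hr]
      rw [map_add, map_mul, C_add, C_mul, ← IsScalarTower.algebraMap_apply,
        IsScalarTower.algebraMap_apply K A A[X], Polynomial.algebraMap_apply]
      simp
    rw [this, map_add, Derivation.map_algebraMap, zero_add, Derivation.leibniz, map_add,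
      smul_eq_mul, smul_eq_mul, map_mul, map_mul, hDx]
    simp [S.he, S.hρ]
  have ha : a ∈ Algebra.adjoin R {b, y} := by rw [S.hgen]; trivial
  induction ha using Algebra.adjoin_induction with
  | mem f hf =>
    rcases hf with rfl | rfl
    · exact hDb
    · exact hDy
  | algebraMap r => exact hCr r
  | add f h hf hh ihf ihh =>
    rw [C_add, map_add, map_add, ihf, ihh, add_zero]
  | mul f h hf hh ihf ihh =>
    rw [C_mul, Derivation.leibniz, map_add, smul_eq_mul, smul_eq_mul, map_mul, map_mul,
        ihf, ihh, mul_zero, mul_zero, add_zero]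

/-- Every derivation of `Y × 𝔸¹` restricts to the line `p × 𝔸¹`. -/
lemma D_formula (D : Derivation K A[X] A[X]) (f : A[X]) :
    (mapAlgHom e) (D f) = (mapAlgHom e) (D X) * derivative ((mapAlgHom e) f) := by
  induction f using Polynomial.induction_on' with
  | add f g hf hg => rw [map_add, map_add, hf, hg, map_add, derivative_add, mul_add]
  | monomial n a =>
    have hX : (mapAlgHom e) (X : A[X]) = X := by simp
    have hC : (mapAlgHom e) (C a : A[X]) = C (e a) := by simp
    rw [← C_mul_X_pow_eq_monomial, Derivation.leibniz, Derivation.leibniz_pow]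
    simp only [smul_eq_mul, nsmul_eq_mul, map_add, map_mul, map_pow, hX, hC, map_natCast,
      D_C S, mul_zero, add_zero]
    rw [derivative_C_mul, derivative_X_pow, C_eq_natCast]
    ring

/-- Functions in the modified Derksen invariant are constant on `p × 𝔸¹`. -/
lemma HDstar_const (f : A[X]) (hf : f ∈ HDstar K A[X]) : ∃ c : K, (mapAlgHom e) f = C c := by
  unfold HDstar at hf
  induction hf using Algebra.adjoin_induction with
  | mem f hf =>
    obtain ⟨D, -, ⟨s, hs⟩, hf⟩ := hf
    have h1 := D_formula S D s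
    have h2 := D_formula S D f
    rw [hs, map_one] at h1
    rw [hf, map_zero] at h2
    have hne : (mapAlgHom e) (D X) ≠ 0 := by
      intro h0
      rw [h0, zero_mul] at h1
      exact one_ne_zero h1
    have h3 : derivative ((mapAlgHom e) f) = 0 :=
      (mul_eq_zero.1 h2.symm).resolve_left hne
    have h4 := derivative_eq_zero.1 h3
    exact ⟨_, eq_C_of_natDegree_eq_zero h4⟩
  | algebraMap c => exact ⟨c, by rw [AlgHom.commutes]; rfl⟩
  | add f g _ _ ihf ihg =>
    obtain ⟨a, ha⟩ := ihf
    obtain ⟨b, hb⟩ := ihg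
    exact ⟨a + b, by rw [map_add, ha, hb, C_add]⟩
  | mul f g _ _ ihf ihg =>
    obtain ⟨a, ha⟩ := ihf
    obtain ⟨b, hb⟩ := ihg
    exact ⟨a * b, by rw [map_mul, ha, hb, C_mul]⟩

lemma xuk_mem (k : ℕ) : C (algebraMap R A x) * X ^ k ∈ HDstar K A[X] := by
  have hb : C b ∈ HDstar K A[X] := by
    refine Algebra.subset_adjoin ⟨du K A, isLND_du K _, ⟨X, ?_⟩, ?_⟩
    · rw [du_apply, derivative_X]
    · rw [du_apply, derivative_C]
  obtain ⟨σ, hσ⟩ := S.hshear k
  have h := conj_mem_HDstar (isLND_du K A) (s := X) (by rw [du_apply, derivative_X])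
    σ (a := C b) (by rw [du_apply, derivative_C])
  rw [hσ] at h
  have := sub_mem h hb
  simpa using this

/-- The surface is of type B. -/
theorem isTypeB : IsTypeB K A := by
  constructor
  · intro htop
    have hX : (X : A[X]) ∈ HDstar K A[X] := by rw [htop]; trivial
    obtain ⟨c, hc⟩ := HDstar_const S X hX
    have hX' : (mapAlgHom e) (X : A[X]) = X := by simp
    rw [hX'] at hc
    exact X_ne_C c hc
  · intro hFG
    rw [Subalgebra.fg_iff_finiteType] at hFG
    have : IsNoetherianRing (HDstar K A[X]) :=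
      Algebra.FiniteType.isNoetherianRing K (HDstar K A[X])
    let w : ℕ → HDstar K A[X] := fun k =>
      ⟨C (algebraMap R A x) * X ^ k, xuk_mem S k⟩
    let I : ℕ →o Ideal (HDstar K A[X]) :=
      ⟨fun n => Ideal.span (Set.range fun i : Fin n => w i), by
        intro m n hmn
        refine Ideal.span_mono ?_
        rintro _ ⟨i, rfl⟩
        exact ⟨⟨i, lt_of_lt_of_le i.2 hmn⟩, rfl⟩⟩
    obtain ⟨N, hN⟩ := monotone_stabilizes_iff_noetherian.2 ‹IsNoetherianRing _› I
    have h1 : w N ∈ I (N + 1) := Ideal.subset_span ⟨⟨N, Nat.lt_succ_self N⟩, rfl⟩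
    rw [← hN (N + 1) (Nat.le_succ N)] at h1
    obtain ⟨c, hc⟩ := (Submodule.mem_span_range_iff_exists_fun _).1 h1
    have h2 : ∑ i : Fin N, (c i : A[X]) * (C (algebraMap R A x) * X ^ (i : ℕ)) =
        C (algebraMap R A x) * X ^ N := by
      have := congrArg (Subtype.val) hc
      simpa [w] using this
    have hxne : (C (algebraMap R A x) : A[X]) ≠ 0 := by
      rw [Ne, C_eq_zero]
      exact S.hxne
    have h3 : ∑ i : Fin N, (c i : A[X]) * X ^ (i : ℕ) = X ^ N := by
      apply mul_left_cancel₀ hxne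
      rw [← h2, Finset.mul_sum]
      refine Finset.sum_congr rfl fun i _ => by ring
    have hX : (mapAlgHom e) (X : A[X]) = X := by simp
    have h4 := congrArg (mapAlgHom e) h3
    rw [map_sum, map_pow, hX] at h4
    have h5 := congrArg (fun f => f.coeff N) h4
    simp only [finsetSum_coeff, map_mul, map_pow, hX, coeff_X_pow, if_true] at h5
    rw [Finset.sum_eq_zero] at h5
    · exact zero_ne_one h5
    · intro i _
      obtain ⟨a, ha⟩ := HDstar_const S _ (c i).2
      rw [ha, coeff_C_mul_X_pow, if_neg]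
      exact (ne_of_lt i.2).symm

end Abstract

end

end Pool.Agent.Lib.MP_340332_ag
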